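import Pool.Agent.Helper75.QC.Defs

/-! Project QM (MP_b8862a_ag): the motives of the surfaces `w^n = f(x, y)`, `deg f ≤ 4`, are abelian.
Definitions: the action of the motivic Galois group. -/

set_option autoImplicit false

namespace Pool.Agent.Helper15.QM

open IntermediateField TensorProduct Pool.Agent.Helper75.QC

/-- The motives of the generic points of varieties over `Ω`: `H i K` is (the realisation, with
coefficients in `L`, of) the motive `h^i(X)` modulo the part of coniveau one, where `X` is a smooth
projective variety over `Ω` with function field `K`, and `G` is the motivic Galois group of the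
category of motives over `Ω`. -/
structure MotivicTheory (Ω L G : Type) [Field Ω] [Field L] [Group G] extends BaseTheory Ω L where
  /-- the action of the motivic Galois group -/
  act : ∀ (i : ℕ) (K : Type) [Field K] [Algebra Ω K], G →* (H i K →ₗ[L] H i K)
  /-- the homomorphisms induced by rational maps are homomorphisms of motives -/
  map_act : ∀ (i : ℕ) {K K' : Type} [Field K] [Algebra Ω K] [Field K'] [Algebra Ω K']
    (g : K →ₐ[Ω] K') (γ : G) (t : H i K), map i g (act i K γ t) = act i K' γ (map i g t)
  /-- the Tate motive of rank one and weight `-2` -/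
  tate : G →* Lˣ
  /-- Let `X` be a surface and `C` a curve. The part of `h^2(X) ⊗ h^1(C)` which vanishes at the
  generic point of `X × C` is supported on a divisor: it is the image of a homomorphism of motives
  from `h^1(D)(-1)`, for a variety `D`. -/
  gysin : ∀ {K C N : Type} [Field K] [Algebra Ω K] [Field C] [Algebra Ω C] [Field N]
    [Algebra Ω N] (a : K →ₐ[Ω] N) (b : C →ₐ[Ω] N) (x y : K) (v : C),
    (⊤ : IntermediateField Ω K).FG → (⊤ : IntermediateField Ω C).FG →
    (∀ k : K, k ∈ Acl Ω {x, y}) → (∀ k : C, k ∈ Acl Ω {v}) →
    Transcendental a.fieldRange (b v) →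
    ∃ (D : Type) (_ : Field D) (_ : Algebra Ω D) (g : H 1 D →ₗ[L] H 2 K ⊗[L] H 1 C),
      (⊤ : IntermediateField Ω D).FG ∧
      (∀ (γ : G) (s : H 1 D), TensorProduct.map (act 2 K γ) (act 1 C γ) (g s) =
        ((tate γ)⁻¹ : Lˣ) • g (act 1 D γ s)) ∧
      ∀ t, TensorProduct.lift ((cup N).compl₁₂ (map 2 a) (map 1 b)) t = 0 ↔
        t ∈ LinearMap.range g

/-- The elements of the motivic Galois group which act trivially on all abelian motives: on the
Tate motive and on `h^1(D)` for every variety `D`. -/
def MotivicTheory.IsTrivialOnAbelian {Ω L G : Type} [Field Ω] [Field L] [Group G]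
    (T : MotivicTheory Ω L G) (γ : G) : Prop :=
  T.tate γ = 1 ∧ ∀ (D : Type) [Field D] [Algebra Ω D], (⊤ : IntermediateField Ω D).FG →
    ∀ s : T.H 1 D, T.act 1 D γ s = s

end Pool.Agent.Helper15.QM
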