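import Pool.Agent.Helper15.QM.Final3
import Pool.Agent.Helper75.WC.Abel

/-! Project QM. Abelian covers: if `γ` acts trivially on `H 2 M` for all cyclic subextensions
`M / R` of the abelian extension `K / R`, it acts trivially on `H 2 K`. -/

set_option autoImplicit false

namespace Pool.Agent.Helper15.QM

open IntermediateField Pool.Agent.Helper75.QC Pool.Agent.Helper75.WC

theorem act_abelian {Ω L G : Type} [Field Ω] [Field L] [CharZero L] [IsAlgClosed L] [Group G]
    (T : MotivicTheory Ω L G) {K : Type} [Field K] [Algebra Ω K] (R : IntermediateField Ω K)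
    [FiniteDimensional R K] [IsGalois R K] (hab : ∀ g h : K ≃ₐ[R] K, g * h = h * g) (r : ℕ) (γ : G)
    (hM : ∀ M : IntermediateField R K, IsCyclic (M ≃ₐ[R] M) →
      ∀ s : T.H r M, T.act r M γ s = s) (t : T.H r K) : T.act r K γ t = t := by
  have hle : (⨆ M : {M : IntermediateField R K // IsCyclic (M ≃ₐ[R] M)},
      LinearMap.range (T.map r (incl R M.1))) ≤
      LinearMap.eqLocus (T.act r K γ) LinearMap.id := by
    refine iSup_le fun M => ?_
    rintro _ ⟨s, rfl⟩
    show T.act r K γ (T.map r (incl R M.1) s) = T.map r (incl R M.1) s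
    rw [← T.map_act, hM M.1 M.2 s]
  rw [span_cyclic T.toBaseTheory R hab r] at hle
  exact hle (Submodule.mem_top (x := t))

end Pool.Agent.Helper15.QM
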