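import Pool.Agent.Helper15.QM.Gen
import Pool.Agent.Helper75.QC.Zf
import Pool.Agent.Helper75.QC.Quad
import Pool.Agent.Helper35.TD.CurveAB

/-! Project QM. For an eigenclass of the covering `w^n ∈ Ω(x, y)` there is a class of a curve such
that the product vanishes at the generic point of the product of the surface and the curve. -/

set_option autoImplicit false

namespace Pool.Agent.Helper15.QM

open IntermediateField Pool.Agent.Helper75.QC

theorem sigma_order {Ω : Type} [Field Ω] {K : Type} [Field K] [Algebra Ω K] {n : ℕ} {ζ : Ω}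
    (hζ : ζ ^ n = 1) (M₀ : IntermediateField Ω K) (w : K) (hK : adjoin Ω ((M₀ : Set K) ∪ {w}) = ⊤)
    (σ : K →ₐ[Ω] K) (hσ : (∀ k ∈ M₀, σ k = k) ∧ σ w = algebraMap Ω K ζ * w) : σ ^ n = 1 := by
  have hfix : ∀ k ∈ M₀, ∀ j : ℕ, (σ ^ j) k = k := by
    intro k hk j
    induction j with
    | zero => rfl
    | succ j ih => rw [pow_succ, AlgHom.mul_apply, hσ.1 k hk, ih]
  have hsc : ∀ j : ℕ, (σ ^ j) w = algebraMap Ω K ζ ^ j * w := by
    intro j
    induction j with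
    | zero => simp
    | succ j ih =>
      rw [pow_succ, AlgHom.mul_apply, hσ.2, map_mul, ih, AlgHom.commutes, pow_succ]
      ring
  apply hom_ext _ hK
  rintro s (hs | rfl)
  · exact hfix s hs n
  · rw [hsc n, ← map_pow, hζ, map_one, one_mul]
    rfl

theorem exists_cross {Ω L : Type} [Field Ω] [Field L] (T : BaseTheory Ω L)
    (α β : ℕ) {n : ℕ} (hn : 0 < n) (hn' : (n : Ω) ≠ 0) (hab : (α.gcd β).Coprime n) {K : Type} [Field K] [Algebra Ω K]
    (M₀ : IntermediateField Ω K) (w : K) (hK : adjoin Ω ((M₀ : Set K) ∪ {w}) = ⊤) (hw0 : w ≠ 0)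
    (hw : w ^ n ∈ M₀)
    (huni : ∀ (N : Type) [Field N] [Algebra Ω N] (g : K →ₐ[Ω] N) (v s : N),
      Transcendental g.fieldRange v → v ^ α * (1 - v) ^ β = s ^ n * g w ^ n →
      Uniruled Ω (adjoin Ω (g '' (M₀ : Set K) ∪ {v, s}) : IntermediateField Ω N) 3)
    {ζ : Ω} (hζ : IsPrimitiveRoot ζ n) (σ : K →ₐ[Ω] K)
    (hσ : (∀ k ∈ M₀, σ k = k) ∧ σ w = algebraMap Ω K ζ * w) (ξ : L) (hξn : ξ ^ n = 1)
    (hξ1 : ξ ^ α ≠ 1) (hξ2 : ξ ^ β ≠ 1) (hξ3 : ξ ^ (α + β) ≠ 1) :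
    ∃ (C N : Type) (_ : Field C) (_ : Algebra Ω C) (_ : Field N) (_ : Algebra Ω N)
      (v : C) (a : K →ₐ[Ω] N) (b : C →ₐ[Ω] N) (z : T.H 1 C),
      (⊤ : IntermediateField Ω C).FG ∧ (∀ k : C, k ∈ Acl Ω {v}) ∧
      Transcendental a.fieldRange (b v) ∧
      (∃ S : Set C, adjoin Ω S = ⊤ ∧
        ∀ τ : Ω ≃+* Ω, ∃ γ : C →+* C, Pool.Agent.Helper35.TD.IsOver τ γ ∧ ∀ s ∈ S, γ s = s) ∧
      z ≠ 0 ∧ ∀ t : T.H 2 K, T.map 2 σ t = ξ • t → T.cup N (T.map 2 a t) (T.map 1 b z) = 0 := by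
  classical
  have hξ0 : ξ ≠ 0 := by
    rintro rfl
    rw [zero_pow hn.ne'] at hξn
    exact zero_ne_one hξn
  obtain ⟨C, N, iC, jC, iN, jN, v, u, a, b, hv, hu, hC, hbv, hN, hsig, -, hgal⟩ :=
    Pool.Agent.Helper35.TD.exists_curve_ab (Ω := Ω) hn hab K
  obtain ⟨σ', hσ'⟩ := hsig ζ hζ.pow_eq_one
  have hfinC : (⊤ : IntermediateField Ω C).FG := by
    rw [← hC]
    exact fg_adjoin_of_finite (Set.toFinite _)
  obtain ⟨z, hz, hσz⟩ := T.curve C n α β ζ v u σ' hn' hζ hv hu hC hσ'.1 hσ'.2 ξ⁻¹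
    (by rw [inv_pow, hξn, inv_one]) (by
      intro h
      rw [inv_pow, inv_eq_one] at h
      exact hξ1 h) (by
      intro h
      rw [inv_pow, inv_eq_one] at h
      exact hξ2 h) (by
      intro h
      rw [inv_pow, inv_eq_one] at h
      exact hξ3 h)
  have huni' : ∀ z : T.H 3 (adjoin Ω (a '' (M₀ : Set K) ∪ {b v, b u / a w}) :
      IntermediateField Ω N), z = 0 := by
    apply T.uniruled
    refine huni N a (b v) (b u / a w) hbv ?_
    have h2 : b u ^ n = b v ^ α * (1 - b v) ^ β := by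
      rw [← map_pow, hu, map_mul, map_pow, map_pow, map_sub, map_one]
    have h3 : a w ≠ 0 := fun h => hw0 (a.injective (h.trans (map_zero a).symm))
    rw [div_pow, h2, div_mul_cancel₀ _ (pow_ne_zero _ h3)]
  refine ⟨C, N, iC, jC, iN, jN, v, a, b, z, hfinC, ?_, hbv, ⟨{v, u}, hC, fun τ => ?_⟩, hz,
    fun t ht => ?_⟩
  · intro s
    rw [← mem_AF]
    have h1 : adjoin Ω {v, u} ≤ AF Ω {v} := by
      rw [adjoin_le_iff]
      have hvm : v ∈ AF Ω {v} := subset_AF _ (by simp)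
      rintro s (rfl | rfl)
      · exact hvm
      · apply AF_root hn
        rw [hu]
        exact mul_mem (pow_mem hvm _) (pow_mem (sub_mem (one_mem _) hvm) _)
    apply h1
    rw [hC]
    exact mem_top
  · obtain ⟨γ, h1, h2, h3⟩ := hgal τ
    refine ⟨γ, h1, ?_⟩
    rintro s (rfl | rfl)
    · exact h2
    · exact h3
  · exact Gen.cross_zero T hn hn' hζ a b M₀ w v u hK hC hN hw0 hw σ hσ σ' hσ' huni' ξ hξ0 t ht z
      hσz

private theorem aeval_mem_qm {Ω K : Type} [Field Ω] [Field K] [Algebra Ω K] (x y : K)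
    (g : MvPolynomial (Fin 2) Ω) : MvPolynomial.aeval ![x, y] g ∈ adjoin Ω {x, y} := by
  induction g using MvPolynomial.induction_on with
  | C a =>
    rw [MvPolynomial.aeval_C]
    exact IntermediateField.algebraMap_mem _ _
  | add g h hg hh =>
    rw [map_add]
    exact add_mem hg hh
  | mul_X g i hg =>
    rw [map_mul, MvPolynomial.aeval_X]
    refine mul_mem hg (subset_adjoin _ _ ?_)
    fin_cases i <;> simp

/-- the function field of the plane is uniruled -/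
theorem plane_zero {Ω L : Type} [Field Ω] [Field L] (T : BaseTheory Ω L) {K : Type}
    [Field K] [Algebra Ω K] (x y : K) (hK : adjoin Ω {x, y} = ⊤) (t : T.H 2 K) : t = 0 := by
  apply T.uniruled 2 K ?_ t
  refine ⟨K, inferInstance, inferInstance, AlgHom.id Ω K, {x}, y, by simp, fun k => ?_⟩
  have h1 : adjoin Ω {x, y} ≤ adjoin Ω (Acl Ω (({x} : Finset K) : Set K) ∪ {y}) := by
    rw [adjoin_le_iff]
    rintro s (rfl | rfl)
    · refine subset_adjoin _ _ (Or.inl ?_)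
      rw [← coe_AF]
      exact subset_AF _ (by simp)
    · exact subset_adjoin _ _ (Or.inr rfl)
  apply h1
  rw [hK]
  exact mem_top

/-- The coverings `w^n ∈ M₀`, `n` prime to the characteristic: the automorphism `σ : w ↦ ζ w`, and for each eigenclass `t ≠ 0` of `σ` a class of a curve such that the product with `t` vanishes at
the generic point. -/
theorem kummer_gen {Ω L : Type} [Field Ω] [IsAlgClosed Ω] [Field L] (T : BaseTheory Ω L)
    (α β : ℕ) {n : ℕ} (hn : 0 < n) (hn' : (n : Ω) ≠ 0) (hab : (α.gcd β).Coprime n)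
    {K : Type} [Field K] [Algebra Ω K]
    (M₀ : IntermediateField Ω K) (w : K) (hK : adjoin Ω ((M₀ : Set K) ∪ {w}) = ⊤) (hw0 : w ≠ 0)
    (hw : w ^ n ∈ M₀) (hdeg : Module.finrank M₀ K = n)
    (huni : ∀ (N : Type) [Field N] [Algebra Ω N] (g : K →ₐ[Ω] N) (v s : N),
      Transcendental g.fieldRange v → v ^ α * (1 - v) ^ β = s ^ n * g w ^ n →
      Uniruled Ω (adjoin Ω (g '' (M₀ : Set K) ∪ {v, s}) : IntermediateField Ω N) 3)
    (hexc : ∀ (ζ : Ω) (σ : K →ₐ[Ω] K), IsPrimitiveRoot ζ n → (∀ k ∈ M₀, σ k = k) →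
      σ w = algebraMap Ω K ζ * w → ∀ (ξ : L) (t : T.H 2 K), ξ ^ n = 1 →
      (ξ ^ α = 1 ∨ ξ ^ β = 1 ∨ ξ ^ (α + β) = 1) → T.map 2 σ t = ξ • t → t = 0) :
    ∃ (ζ : Ω) (σ : K →ₐ[Ω] K), IsPrimitiveRoot ζ n ∧ (∀ k ∈ M₀, σ k = k) ∧
      σ w = algebraMap Ω K ζ * w ∧ σ ^ n = 1 ∧
      ∀ (ξ : L) (t : T.H 2 K), T.map 2 σ t = ξ • t → t ≠ 0 →
      ∃ (C N : Type) (_ : Field C) (_ : Algebra Ω C) (_ : Field N) (_ : Algebra Ω N)
        (v : C) (a : K →ₐ[Ω] N) (b : C →ₐ[Ω] N) (z : T.H 1 C),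
        (⊤ : IntermediateField Ω C).FG ∧ (∀ k : C, k ∈ Acl Ω {v}) ∧
        Transcendental a.fieldRange (b v) ∧
        (∃ S : Set C, adjoin Ω S = ⊤ ∧
          ∀ τ : Ω ≃+* Ω, ∃ γ : C →+* C, Pool.Agent.Helper35.TD.IsOver τ γ ∧ ∀ s ∈ S, γ s = s) ∧
        z ≠ 0 ∧ T.cup N (T.map 2 a t) (T.map 1 b z) = 0 := by
  classical
  have : NeZero (n : Ω) := ⟨hn'⟩
  obtain ⟨ζ, hζ⟩ : ∃ ζ : Ω, IsPrimitiveRoot ζ n :=
    HasEnoughRootsOfUnity.exists_primitiveRoot Ω n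
  obtain ⟨σ, hσ⟩ := Gen.kummer_sigma hn hn' hζ.pow_eq_one M₀ w hK hw hdeg
  have hσn : σ ^ n = 1 := sigma_order hζ.pow_eq_one M₀ w hK σ hσ
  refine ⟨ζ, σ, hζ, hσ.1, hσ.2, hσn, fun ξ t ht ht0 => ?_⟩
  have hpow : ∀ j : ℕ, (T.map 2 σ ^ j) t = ξ ^ j • t := by
    intro j
    induction j with
    | zero => simp
    | succ j ih => rw [pow_succ, Module.End.mul_apply, ht, map_smul, ih, smul_smul, pow_succ, mul_comm]
  have hξn : ξ ^ n = 1 := by
    have h1 := hpow n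
    rw [← tmap_pow75, hσn] at h1
    have h2 : T.map 2 (1 : K →ₐ[Ω] K) t = t := by
      show T.map 2 (AlgHom.id Ω K) t = t
      rw [T.map_id]
      rfl
    rw [h2] at h1
    have h3 : (ξ ^ n - 1) • t = 0 := by
      rw [sub_smul, ← h1, one_smul, sub_self]
    exact sub_eq_zero.1 ((smul_eq_zero.1 h3).resolve_right ht0)
  obtain ⟨C, N, iC, jC, iN, jN, v, a, b, z, h1, h2, h3, h4, h5, h6⟩ :=
    exists_cross T α β hn hn' hab M₀ w hK hw0 hw huni hζ σ hσ ξ hξn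
      (fun h => ht0 (hexc ζ σ hζ hσ.1 hσ.2 ξ t hξn (Or.inl h) ht))
      (fun h => ht0 (hexc ζ σ hζ hσ.1 hσ.2 ξ t hξn (Or.inr (Or.inl h)) ht))
      (fun h => ht0 (hexc ζ σ hζ hσ.1 hσ.2 ξ t hξn (Or.inr (Or.inr h)) ht))
  exact ⟨C, N, iC, jC, iN, jN, v, a, b, z, h1, h2, h3, h4, h5, h6 t ht⟩

/-- The geometric input for the surfaces `w^n = f(x, y)`, `deg f ≤ 4`, `n` prime to the
characteristic. -/
theorem quartic_input {Ω L : Type} [Field Ω] [IsAlgClosed Ω] [Field L] (T : BaseTheory Ω L)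
    (f : MvPolynomial (Fin 2) Ω) (hf : f.totalDegree ≤ 4) {n : ℕ} (hn : 0 < n)
    (hn' : (n : Ω) ≠ 0) {K : Type} [Field K] [Algebra Ω K] (x y w : K)
    (hK : adjoin Ω {x, y, w} = ⊤) (hw0 : w ≠ 0) (hw : w ^ n = MvPolynomial.aeval ![x, y] f) :
    w ^ n ∈ adjoin Ω {x, y} ∧
    (∀ (N : Type) [Field N] [Algebra Ω N] (g : K →ₐ[Ω] N) (v s : N),
      Transcendental g.fieldRange v → v ^ 1 * (1 - v) ^ 1 = s ^ n * g w ^ n →
      Uniruled Ω (adjoin Ω {g x, g y, v, s} : IntermediateField Ω N) 3) ∧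
    (∀ (ζ : Ω) (σ : K →ₐ[Ω] K), IsPrimitiveRoot ζ n → σ x = x → σ y = y →
      σ w = algebraMap Ω K ζ * w → ∀ (ξ : L) (t : T.H 2 K), ξ ^ n = 1 →
      (ξ ^ 1 = 1 ∨ ξ ^ 1 = 1 ∨ ξ ^ (1 + 1) = 1) → T.map 2 σ t = ξ • t → t = 0) := by
  refine ⟨by rw [hw]; exact aeval_mem_qm x y f, ?_, ?_⟩
  · obtain ⟨c, hc⟩ := exists_Fv f hf
    intro N _ _ g v s hv hs
    refine uni_field c hn (g x) (g y) v s ?_ ?_
    · intro h
      exact hv (h.tower_top _)
    · rw [pow_one, pow_one, ← map_pow, hw, hc K x y] at hs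
      rw [hs]
      congr 1
      unfold Fv
      simp only [map_sum, map_mul, map_pow, AlgHom.commutes]
  · intro ζ σ hζ h1 h2 h3 ξ t _ hξ ht
    have hξ2 : ξ ^ 2 = 1 := by
      rcases hξ with h | h | h
      · rw [pow_one] at h
        rw [h, one_pow]
      · rw [pow_one] at h
        rw [h, one_pow]
      · exact h
    refine eigen_zero T f hf hn hn' hζ x y w hK hw0 hw σ ⟨h1, h2, h3⟩ t ?_
    rw [ht, map_smul, ht, smul_smul, ← pow_two, hξ2, one_smul]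

end Pool.Agent.Helper15.QM
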