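import Pool.Agent.Helper15.QM.Main
import Pool.Agent.Helper35.TD.Target

/-! Project QM. The motives of the surfaces which are dominated by a cyclic cover of the plane
branched along two curves of total degree at most five or along three conics are abelian. -/

set_option autoImplicit false

namespace Pool.Agent.Helper15.QM

open IntermediateField Pool.Agent.Helper75.QC Pool.Agent.Helper75.TC Pool.Agent.Helper35.TD

/-- **Consumer for the motivic Galois group** -/
theorem input_motivic {Ω L G : Type} [Field Ω] [IsAlgClosed Ω] [Field L] [IsAlgClosed L]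
    [CharZero L] [Group G] (T : MotivicTheory Ω L G) {n : ℕ} (hn : 0 < n) (hn' : (n : Ω) ≠ 0)
    {K : Type} [Field K] [Algebra Ω K] {x y w : K} (h : Input T.toBaseTheory n x y w)
    (γ : G) (hγ : T.IsTrivialOnAbelian γ) (t : T.H 2 K) : T.act 2 K γ t = t := by
  rcases h.main with h1 | ⟨hw0, α, β, h0, h1, h2⟩
  · rw [T.uniruled 2 K h1 t, map_zero]
  · exact main_xy T α β hn hn' h0 x y w h.gen hw0 h.mem h.deg h1 h2 γ hγ t

/-- if `γ` acts trivially on the motive of a surface, it acts trivially on the motives of the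
surfaces which it dominates -/
theorem dominated {Ω L G : Type} [Field Ω] [Field L] [Group G] (T : MotivicTheory Ω L G)
    {K₀ K : Type} [Field K₀] [Algebra Ω K₀] [Field K] [Algebra Ω K] (i : ℕ) (ι : K₀ →ₐ[Ω] K)
    (hι : ∀ k : K, IsAlgebraic ι.fieldRange k) (γ : G) (h : ∀ t : T.H i K, T.act i K γ t = t)
    (t : T.H i K₀) : T.act i K₀ γ t = t := by
  apply T.inj i ι hι
  rw [T.map_act, h]

theorem final {Ω L G : Type} [Field Ω] [IsAlgClosed Ω] [CharZero Ω] [Field L] [IsAlgClosed L]
    [CharZero L] [Group G] (T : MotivicTheory Ω L G) {n : ℕ} (hn : 0 < n)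
    (f g h : MvPolynomial (Fin 2) Ω) (a b c : ℕ) (H : Branch n f g h a b c) {K : Type} [Field K]
    [Algebra Ω K] (x y w : K) (hK : adjoin Ω {x, y, w} = ⊤)
    (hdeg : Module.finrank (adjoin Ω {x, y}) K = n)
    (hw : w ^ n = MvPolynomial.aeval ![x, y] (f ^ a * g ^ b * h ^ c)) {K₀ : Type} [Field K₀]
    [Algebra Ω K₀] (ι : K₀ →ₐ[Ω] K) (hι : ∀ k : K, IsAlgebraic ι.fieldRange k) (γ : G)
    (hγ : T.IsTrivialOnAbelian γ) (t : T.H 2 K₀) : T.act 2 K₀ γ t = t := by
  have hn' : (n : Ω) ≠ 0 := by exact_mod_cast hn.ne'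
  refine dominated T 2 ι hι γ (fun t => ?_) t
  obtain ⟨x', -, y', -, w', -, hI⟩ := target T.toBaseTheory hn hn' x y w hK hdeg f g h a b c H
    (by rw [hw, map_mul, map_mul, map_pow, map_pow, map_pow]; rfl) Set.univ
    (Set.mem_univ _) (Set.mem_univ _) (Set.mem_univ _) (Set.mem_univ _) (Set.mem_univ _)
  exact input_motivic T hn hn' hI γ hγ t

end Pool.Agent.Helper15.QM
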