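import Pool.Agent.Helper15.QM.Main
import Pool.Agent.Helper40.SD.Tower
import Pool.Agent.Helper40.SD.Inp
import Pool.Agent.Helper35.TD.Input

/-! Project QM. The surfaces `w ^ n * q ^ 2 = f`: `deg f ≤ 4`, `deg q ≤ 2`, or the same with the
weights `1, 2` and the degrees `6`, `3` (characteristic different from two).

`v (1 - v) = s ^ n f / q ^ 2`: `r = (1 - 2 v) q` satisfies `r ^ 2 = q ^ 2 - 4 s ^ n f`. -/

set_option autoImplicit false

namespace Pool.Agent.Helper15.QM

open IntermediateField Pool.Agent.Helper75.QC Pool.Agent.Helper40.SD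

/-- degree four, or degree six for the weights `1, 2` -/
def Good {R : Type} [CommRing R] (B : MvPolynomial (Fin 2) R) : Prop :=
  B.totalDegree ≤ 4 ∨ WDeg 6 B

/-- `f / q ^ 2` -/
def Pair {R : Type} [CommRing R] (f q : MvPolynomial (Fin 2) R) : Prop :=
  (f.totalDegree ≤ 4 ∧ q.totalDegree ≤ 2) ∨ (WDeg 6 f ∧ WDeg 3 q)

theorem Pair.left {R : Type} [CommRing R] {f q : MvPolynomial (Fin 2) R} (h : Pair f q) :
    Good f := by
  rcases h with h | h
  · exact Or.inl h.1
  · exact Or.inr h.1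

theorem totalDegree_map_le' {R R' : Type} [CommRing R] [CommRing R'] (φ : R →+* R')
    (p : MvPolynomial (Fin 2) R) : (MvPolynomial.map φ p).totalDegree ≤ p.totalDegree :=
  Finset.sup_mono (MvPolynomial.support_map_subset _ _)

theorem Pair.comb {R R' : Type} [CommRing R] [CommRing R'] {f q : MvPolynomial (Fin 2) R}
    (h : Pair f q) (φ : R →+* R') (c : R') :
    Good (MvPolynomial.map φ q ^ 2 + MvPolynomial.C c * MvPolynomial.map φ f) := by
  rcases h with ⟨h1, h2⟩ | ⟨h1, h2⟩
  · left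
    refine (MvPolynomial.totalDegree_add _ _).trans (max_le ?_ ?_)
    · refine (MvPolynomial.totalDegree_pow _ _).trans ?_
      have := (totalDegree_map_le' φ q).trans h2
      omega
    · refine (MvPolynomial.totalDegree_mul _ _).trans ?_
      rw [MvPolynomial.totalDegree_C, zero_add]
      exact (totalDegree_map_le' φ f).trans h1
  · right
    exact ((h2.map φ).pow 2).add (((WDeg.C c).mul (h1.map φ)).mono (by norm_num))

theorem uni_good {Ω N : Type} [Field Ω] [IsAlgClosed Ω] [Field N] [Algebra Ω N]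
    (h2 : (2 : Ω) ≠ 0) (B : MvPolynomial (Fin 2) Ω) (hB : Good B) (x y r : N)
    (hr : r ^ 2 = MvPolynomial.aeval ![x, y] B) :
    Uniruled Ω (adjoin Ω {x, y, r} : IntermediateField Ω N) 2 := by
  rcases hB with hB | hB
  · exact uni_double75 h2 B hB x y r hr
  · exact uni_cone_adjoin h2 B hB x y r hr

theorem uni_pair {Ω N : Type} [Field Ω] [IsAlgClosed Ω] [Field N] [Algebra Ω N]
    (h2 : (2 : Ω) ≠ 0) (f q : MvPolynomial (Fin 2) Ω) (h : Pair f q) (n : ℕ) (x y v s : N)
    (hq : MvPolynomial.aeval ![x, y] q ≠ 0)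
    (hv : v * (1 - v) * MvPolynomial.aeval ![x, y] q ^ 2 =
      s ^ n * MvPolynomial.aeval ![x, y] f) :
    Uniruled Ω (adjoin Ω {x, y, v, s} : IntermediateField Ω N) 3 := by
  obtain ⟨ι, -⟩ : ∃ i : N →ₐ[Ω] AlgebraicClosure N,
      i = IsScalarTower.toAlgHom Ω N (AlgebraicClosure N) := ⟨_, rfl⟩
  obtain ⟨r, hr⟩ : ∃ r : N, r = (1 - 2 * v) * MvPolynomial.aeval ![x, y] q := ⟨_, rfl⟩
  have hr2 : r ^ 2 = MvPolynomial.aeval ![x, y] q ^ 2 -
      4 * s ^ n * MvPolynomial.aeval ![x, y] f := by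
    rw [mul_assoc, ← hv, hr]
    ring
  have ms : ι s ∈ AF Ω {ι s} := subset_AF _ (by simp)
  have h2' : (2 : AF Ω {ι s}) ≠ 0 := by
    intro h
    apply h2
    apply (algebraMap Ω (AF Ω {ι s})).injective
    rw [map_ofNat, map_zero, h]
  obtain ⟨σ, hσ⟩ : ∃ σ : AF Ω {ι s}, (σ : AlgebraicClosure N) = ι s := ⟨⟨ι s, ms⟩, rfl⟩
  have h3 : Uniruled Ω (adjoin Ω (insert s {x, y, r}) : IntermediateField Ω N) 3 := by
    refine uni_family ι s {x, y, r} ?_
    rw [Set.image_insert_eq, Set.image_insert_eq, Set.image_singleton]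
    refine uni_good h2' _ (h.comb (algebraMap Ω (AF Ω {ι s})) (-(4 * σ ^ n))) (ι x) (ι y) (ι r) ?_
    rw [← map_pow, hr2, map_sub, map_pow, map_mul, map_mul, map_pow, map_aeval75, map_aeval75,
      map_add, map_mul, map_pow, MvPolynomial.aeval_map_algebraMap,
      MvPolynomial.aeval_map_algebraMap, MvPolynomial.aeval_C]
    have h4 : algebraMap (AF Ω {ι s}) (AlgebraicClosure N) (-(4 * σ ^ n)) = -(4 * ι s ^ n) := by
      rw [map_neg, map_mul, map_pow, map_ofNat]
      change -(4 * (σ : AlgebraicClosure N) ^ n) = _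
      rw [hσ]
    rw [h4, map_ofNat]
    ring
  refine uniruled_adjoin (AlgHom.id Ω N) _ _ ?_ h3
  set M := (adjoin Ω (insert s {x, y, r}) : IntermediateField Ω N) with hM
  have mx : x ∈ M := subset_adjoin _ _ (by simp)
  have my : y ∈ M := subset_adjoin _ _ (by simp)
  have mr : r ∈ M := subset_adjoin _ _ (by simp)
  have mss : s ∈ M := subset_adjoin _ _ (by simp)
  have h2N : (2 : N) ≠ 0 := by
    intro h
    apply h2
    apply (algebraMap Ω N).injective
    rw [map_ofNat, map_zero, h]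
  rintro a (rfl | rfl | rfl | rfl)
  · exact mx
  · exact my
  · have hqM : MvPolynomial.aeval ![x, y] q ∈ M :=
      (adjoin_le_iff.2 (by rintro b (rfl | rfl) <;> assumption)) (aeval_mem75 x y q)
    have h5 : a = (1 - r / MvPolynomial.aeval ![x, y] q) / 2 := by
      rw [hr]
      field_simp
      ring
    change a ∈ M
    rw [h5]
    exact div_mem (sub_mem (one_mem _) (div_mem mr hqM)) (ofNat_mem M 2)
  · exact mss

/-- **The geometric input for `w ^ n * q ^ 2 = f`**, characteristic different from two -/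
theorem input_pair {Ω L : Type} [Field Ω] [IsAlgClosed Ω] [Field L] (T : BaseTheory Ω L)
    (h2 : (2 : Ω) ≠ 0) (f q : MvPolynomial (Fin 2) Ω) (h : Pair f q) {n : ℕ} (hn : 0 < n)
    (hn' : (n : Ω) ≠ 0) {K : Type} [Field K] [Algebra Ω K] (x y w : K)
    (hK : adjoin Ω {x, y, w} = ⊤) (hdeg : Module.finrank (adjoin Ω {x, y}) K = n)
    (hq : MvPolynomial.aeval ![x, y] q ≠ 0)
    (hw : w ^ n * MvPolynomial.aeval ![x, y] q ^ 2 = MvPolynomial.aeval ![x, y] f) :
    Pool.Agent.Helper35.TD.Input T n x y w := by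
  have hwF : w ^ n ∈ adjoin Ω {x, y} := by
    have h1 : w ^ n = MvPolynomial.aeval ![x, y] f * (MvPolynomial.aeval ![x, y] q ^ 2)⁻¹ := by
      rw [← hw]
      field_simp
    rw [h1]
    exact mul_mem (aeval_mem75 x y f) (inv_mem (pow_mem (aeval_mem75 x y q) _))
  by_cases hw0 : w = 0
  · refine ⟨hK, hdeg, hwF, Or.inl (Pool.Agent.Helper75.TC.uniruled_of_gen hK ?_)⟩
    refine uni_plane75 x y w ?_
    rw [hw0]
    exact zero_mem _
  refine ⟨hK, hdeg, hwF, Or.inr ⟨hw0, 1, 1, by simp, ?_, ?_⟩⟩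
  · intro N _ _ g v s hv hs
    refine uni_pair h2 f q h n (g x) (g y) v s ?_ ?_
    · rw [← map_aeval75]
      exact (map_ne_zero g).2 hq
    · rw [pow_one, pow_one] at hs
      rw [← map_aeval75, ← map_aeval75, hs, ← hw, map_mul, map_pow, map_pow]
      ring
  · intro ζ σ hζ hx hy hσ ξ t hξ hξ' ht
    have hξ2 : ξ ^ 2 = 1 := by
      rcases hξ' with h | h | h
      · rw [pow_one] at h
        rw [h, one_pow]
      · rw [pow_one] at h
        rw [h, one_pow]
      · exact h
    refine exc_zero T hn hn' hζ x y w hK hw0 hwF σ ⟨hx, hy, hσ⟩ 2 (fun e m hem he => ?_) ξ hξ hξ2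
      t ht
    rcases (Nat.dvd_prime Nat.prime_two).1 he with he | he
    · rw [he, one_mul] at hem
      rw [← hem]
      exact uni_plane75 x y _ hwF
    · rw [he] at hem
      obtain ⟨r, hr⟩ : ∃ r : K, r = w ^ m * MvPolynomial.aeval ![x, y] q := ⟨_, rfl⟩
      have h3 := uni_good h2 f h.left x y r (by
        rw [← hw, hr, hem]
        ring)
      refine uniruled_adjoin (AlgHom.id Ω K) _ _ ?_ h3
      have mx : x ∈ adjoin Ω {x, y, r} := subset_adjoin _ _ (by simp)
      have my : y ∈ adjoin Ω {x, y, r} := subset_adjoin _ _ (by simp)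
      have mr : r ∈ adjoin Ω {x, y, r} := subset_adjoin _ _ (by simp)
      rintro a (rfl | rfl | rfl)
      · exact mx
      · exact my
      · have hqM : MvPolynomial.aeval ![x, y] q ∈ adjoin Ω {x, y, r} :=
          (adjoin_le_iff.2 (by rintro b (rfl | rfl) <;> assumption)) (aeval_mem75 x y q)
        have h5 : w ^ m = r / MvPolynomial.aeval ![x, y] q := by
          rw [hr]
          field_simp
        change w ^ m ∈ adjoin Ω {x, y, r}
        rw [h5]
        exact div_mem mr hqM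

end Pool.Agent.Helper15.QM
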