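import Pool.Agent.Helper15.QM.Tower
import Pool.Agent.Helper35.TD.Final2

/-! Project QM. The final theorem: the surfaces dominated by a cyclic cover of the plane in the
table, by `w ^ n q ^ 2 = f`, or by an elliptic surface `y ^ 2 = h(x, w ^ n)`. -/

set_option autoImplicit false

namespace Pool.Agent.Helper15.QM

open IntermediateField Pool.Agent.Helper75.QC Pool.Agent.Helper75.TC Pool.Agent.Helper35.TD

theorem final_table {Ω L G : Type} [Field Ω] [IsAlgClosed Ω] [CharZero Ω] [Field L] [IsAlgClosed L]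
    [CharZero L] [Group G] (T : MotivicTheory Ω L G) {K : Type} [Field K] [Algebra Ω K]
    (hc : IsTableCover Ω K) (γ : G) (hγ : T.IsTrivialOnAbelian γ) (t : T.H 2 K) :
    T.act 2 K γ t = t := by
  obtain ⟨n, f, g, h, a, b, c, x, y, w, hn, H, hK, hdeg, hw⟩ := hc
  have hn' : (n : Ω) ≠ 0 := by exact_mod_cast hn.ne'
  obtain ⟨w', -, hI⟩ := target2 T.toBaseTheory hn hn' x y w hK hdeg f g h a b c H hw Set.univ
    (Set.mem_univ _) (Set.mem_univ _) (Set.mem_univ _)
  exact input_motivic T hn hn' hI γ hγ t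

theorem final_pair {Ω L G : Type} [Field Ω] [IsAlgClosed Ω] [CharZero Ω] [Field L] [IsAlgClosed L]
    [CharZero L] [Group G] (T : MotivicTheory Ω L G) {K : Type} [Field K] [Algebra Ω K]
    (hc : IsPairCover Ω K) (γ : G) (hγ : T.IsTrivialOnAbelian γ) (t : T.H 2 K) :
    T.act 2 K γ t = t := by
  obtain ⟨n, f, q, x, y, w, hn, H, hK, hdeg, hq, hw⟩ := hc
  have hn' : (n : Ω) ≠ 0 := by exact_mod_cast hn.ne'
  exact input_motivic T hn hn' (input_pair T.toBaseTheory two_ne_zero f q H hn hn' x y w hK hdeg hq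
    hw) γ hγ t

theorem final_tower {Ω L G : Type} [Field Ω] [IsAlgClosed Ω] [CharZero Ω] [Field L]
    [IsAlgClosed L] [CharZero L] [Group G] (T : MotivicTheory Ω L G) {K : Type} [Field K]
    [Algebra Ω K] (hc : IsTower Ω K) (γ : G) (hγ : T.IsTrivialOnAbelian γ) (t : T.H 2 K) :
    T.act 2 K γ t = t := by
  obtain ⟨n, h, x, y, w, hn, hh, hK, hy⟩ := hc
  have hn' : (n : Ω) ≠ 0 := by exact_mod_cast hn.ne'
  exact tower T two_ne_zero h hh hn hn' x y w hK hy γ hγ t

theorem final2 {Ω L G : Type} [Field Ω] [IsAlgClosed Ω] [CharZero Ω] [Field L] [IsAlgClosed L]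
    [CharZero L] [Group G] (T : MotivicTheory Ω L G) {K₀ K : Type} [Field K₀] [Algebra Ω K₀]
    [Field K] [Algebra Ω K] (hc : IsTableCover Ω K ∨ IsPairCover Ω K ∨ IsTower Ω K)
    (ι : K₀ →ₐ[Ω] K) (hι : ∀ k : K, IsAlgebraic ι.fieldRange k) (γ : G)
    (hγ : T.IsTrivialOnAbelian γ) (t : T.H 2 K₀) : T.act 2 K₀ γ t = t := by
  refine dominated T 2 ι hι γ (fun t => ?_) t
  rcases hc with hc | hc | hc
  · exact final_table T hc γ hγ t
  · exact final_pair T hc γ hγ t
  · exact final_tower T hc γ hγ t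

end Pool.Agent.Helper15.QM
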