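import Pool.Agent.Helper15.QM.Solids
import Pool.Agent.Helper48.ET.WSolid

/-! Project QM. The threefolds `v (1 - v) = s ^ n f / q ^ 2` as weighted double solids: with
`p = 1 / s`, `n + e = 2 k`, `r = (1 - 2 v) q p ^ k`, `r ^ 2 = p ^ (2 k) q ^ 2 - 4 p ^ e f`. -/

set_option autoImplicit false

namespace Pool.Agent.Helper15.QM

open IntermediateField Pool.Agent.Helper75.QC Pool.Agent.Helper75.TC Pool.Agent.Helper40.SD

/-- the weighted degree is at most `D` -/
def WD {R : Type} [CommRing R] {m : ℕ} (w : Fin m → ℕ) (D : ℕ) (B : MvPolynomial (Fin m) R) : Prop :=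
  ∀ s ∈ B.support, ∑ i, w i * s i ≤ D

namespace WD

variable {R : Type} [CommRing R] {m : ℕ} {w : Fin m → ℕ} {D E : ℕ} {B A : MvPolynomial (Fin m) R}

theorem mono (h : WD w D B) (hDE : D ≤ E) : WD w E B := fun s hs => (h s hs).trans hDE

theorem add (h : WD w D B) (h' : WD w D A) : WD w D (B + A) := by
  classical
  intro s hs
  rcases Finset.mem_union.1 (MvPolynomial.support_add hs) with h1 | h1
  · exact h s h1
  · exact h' s h1

theorem neg (h : WD w D B) : WD w D (-B) := by
  intro s hs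
  rw [MvPolynomial.support_neg] at hs
  exact h s hs

theorem sub (h : WD w D B) (h' : WD w D A) : WD w D (B - A) := by
  rw [sub_eq_add_neg]
  exact h.add h'.neg

theorem mul (h : WD w D B) (h' : WD w E A) : WD w (D + E) (B * A) := by
  classical
  intro s hs
  obtain ⟨s1, h1, s2, h2, rfl⟩ := Finset.mem_add.1 (MvPolynomial.support_mul B A hs)
  have e1 := h s1 h1
  have e2 := h' s2 h2
  calc ∑ i, w i * (s1 + s2) i = ∑ i, w i * s1 i + ∑ i, w i * s2 i := by
        rw [← Finset.sum_add_distrib]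
        exact Finset.sum_congr rfl fun i _ => by rw [Finsupp.add_apply, mul_add]
    _ ≤ D + E := Nat.add_le_add e1 e2

theorem C (a : R) : WD w 0 (MvPolynomial.C a : MvPolynomial (Fin m) R) := by
  classical
  intro s hs
  rw [MvPolynomial.support_C] at hs
  split_ifs at hs
  · simp at hs
  · rw [Finset.mem_singleton.1 hs]
    simp

theorem pow (h : WD w D B) (k : ℕ) : WD w (k * D) (B ^ k) := by
  induction k with
  | zero =>
    rw [pow_zero, Nat.zero_mul]
    exact C (1 : R)
  | succ k ih =>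
    rw [pow_succ, Nat.succ_mul]
    exact ih.mul h

theorem X (i : Fin m) : WD w (w i) (MvPolynomial.X i : MvPolynomial (Fin m) R) := by
  classical
  intro s hs
  have h1 : s = Finsupp.single i 1 := by
    have h2 := MvPolynomial.support_monomial_subset (a := (1 : R)) (s := Finsupp.single i 1) hs
    exact Finset.mem_singleton.1 h2
  rw [h1, Finset.sum_eq_single i]
  · simp
  · intro j _ hj
    rw [Finsupp.single_eq_of_ne hj, mul_zero]
  · intro h
    exact absurd (Finset.mem_univ _) h

end WD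

theorem WD.up {Ω : Type} [Field Ω] {f : MvPolynomial (Fin 2) Ω} {a b c D : ℕ}
    (h : ∀ m ∈ f.support, a * m 0 + b * m 1 ≤ D) : WD ![a, b, c] D (up f) := by
  classical
  intro s hs
  unfold QM.up at hs
  rw [MvPolynomial.support_rename_of_injective (Fin.castSucc_injective 2)] at hs
  obtain ⟨m, hm, rfl⟩ := Finset.mem_image.1 hs
  have h0 : (Finsupp.mapDomain Fin.castSucc m : Fin 3 →₀ ℕ) 0 = m 0 :=
    Finsupp.mapDomain_apply (Fin.castSucc_injective 2) m 0
  have h1 : (Finsupp.mapDomain Fin.castSucc m : Fin 3 →₀ ℕ) 1 = m 1 :=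
    Finsupp.mapDomain_apply (Fin.castSucc_injective 2) m 1
  have h2 : (Finsupp.mapDomain Fin.castSucc m : Fin 3 →₀ ℕ) 2 = 0 := by
    apply Finsupp.mapDomain_of_notMem_range
    rintro ⟨i, hi⟩
    fin_cases i <;> exact absurd (congrArg Fin.val hi) (by norm_num)
  rw [Fin.sum_univ_three, h0, h1, h2]
  simpa using h m hm

/-- a field which is generated by elements of the function field of a weighted double solid -/
theorem uni_in_wsolid {Ω N : Type} [Field Ω] [IsAlgClosed Ω] (h2 : (2 : Ω) ≠ 0) [Field N]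
    [Algebra Ω N] (w : Fin 3 → ℕ) (hw : 0 < ∑ i, w i) (B : MvPolynomial (Fin 3) Ω)
    (hB : WD w (2 * ∑ i, w i) B) (x y p r : N)
    (hr : r ^ 2 = MvPolynomial.aeval ![x, y, p] B) (S : Set N)
    (hS : ∀ a ∈ S, a ∈ adjoin Ω {x, y, p, r}) :
    Uniruled Ω (adjoin Ω S : IntermediateField Ω N) 3 := by
  refine uniruled_adjoin (AlgHom.id Ω N) S {x, y, p, r} hS ?_
  set K := (adjoin Ω {x, y, p, r} : IntermediateField Ω N) with hK
  have mx : x ∈ K := subset_adjoin _ _ (by simp)
  have my : y ∈ K := subset_adjoin _ _ (by simp)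
  have mp : p ∈ K := subset_adjoin _ _ (by simp)
  have mr : r ∈ K := subset_adjoin _ _ (by simp)
  refine Pool.Agent.Helper48.ET.uni_weighted h2 w hw B hB
    ![(⟨x, mx⟩ : K), ⟨y, my⟩, ⟨p, mp⟩] (⟨r, mr⟩ : K) ?_ ?_
  · apply Subtype.ext
    have h1 : ((MvPolynomial.aeval ![(⟨x, mx⟩ : K), ⟨y, my⟩, ⟨p, mp⟩] B : K) : N) =
        MvPolynomial.aeval ![x, y, p] B := by
      have h3 : (K.val).comp (MvPolynomial.aeval ![(⟨x, mx⟩ : K), ⟨y, my⟩, ⟨p, mp⟩]) =
          MvPolynomial.aeval (R := Ω) ![x, y, p] := by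
        ext i
        fin_cases i <;> simp
      exact DFunLike.congr_fun h3 B
    rw [h1, ← hr]
    rfl
  · apply lift_injective K
    rw [lift_top, lift_adjoin]
    refine Eq.trans ?_ hK.symm
    congr 1
    ext a
    simp only [Set.image_union, Set.image_singleton, Set.mem_union, Set.mem_image,
      Set.mem_range, Set.mem_singleton_iff, Set.mem_insert_iff]
    constructor
    · rintro (⟨b, ⟨i, rfl⟩, rfl⟩ | rfl)
      · fin_cases i
        · exact Or.inl rfl
        · exact Or.inr (Or.inl rfl)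
        · exact Or.inr (Or.inr (Or.inl rfl))
      · exact Or.inr (Or.inr (Or.inr rfl))
    · rintro (rfl | rfl | rfl | rfl)
      · exact Or.inl ⟨_, ⟨0, rfl⟩, rfl⟩
      · exact Or.inl ⟨_, ⟨1, rfl⟩, rfl⟩
      · exact Or.inl ⟨_, ⟨2, rfl⟩, rfl⟩
      · exact Or.inr rfl

private theorem mem_val15g {Ω N : Type} [Field Ω] [Field N] [Algebra Ω N]
    (f : MvPolynomial (Fin 2) Ω) (x y : N) (F : IntermediateField Ω N)
    (hx : x ∈ F) (hy : y ∈ F) : MvPolynomial.aeval ![x, y] f ∈ F := by
  have h := map_aeval75 F.val (⟨x, hx⟩ : F) ⟨y, hy⟩ f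
  change ((MvPolynomial.aeval ![(⟨x, hx⟩ : F), ⟨y, hy⟩] f : F) : N) = _ at h
  rw [show MvPolynomial.aeval ![x, y] f = ((MvPolynomial.aeval ![(⟨x, hx⟩ : F), ⟨y, hy⟩] f : F) : N)
    from h.symm]
  exact Subtype.property _

/-- **The threefolds `v (1 - v) q ^ 2 = s ^ n f`**, characteristic different from two. The weights
of `x`, `y` and `1 / s` are `a`, `b`, `c`. -/
theorem uni_gpair {Ω N : Type} [Field Ω] [IsAlgClosed Ω] [Field N] [Algebra Ω N]
    (h2 : (2 : Ω) ≠ 0) (f q : MvPolynomial (Fin 2) Ω) (a b c k e n : ℕ) (hk : 2 * k = n + e)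
    (hpos : 0 < a + b + c)
    (hf : ∀ m ∈ f.support, a * m 0 + b * m 1 + e * c ≤ 2 * (a + b + c))
    (hq : ∀ m ∈ q.support, a * m 0 + b * m 1 + k * c ≤ a + b + c)
    (x y v s : N) (hq0 : MvPolynomial.aeval ![x, y] q ≠ 0) (hs0 : s ≠ 0)
    (hv : v * (1 - v) * MvPolynomial.aeval ![x, y] q ^ 2 =
      s ^ n * MvPolynomial.aeval ![x, y] f) :
    Uniruled Ω (adjoin Ω {x, y, v, s} : IntermediateField Ω N) 3 := by
  have h2N : (2 : N) ≠ 0 := by
    intro h
    apply h2
    apply (algebraMap Ω N).injective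
    rw [map_ofNat, map_zero, h]
  obtain ⟨p, hp⟩ : ∃ p : N, p = s⁻¹ := ⟨_, rfl⟩
  have hp0 : p ≠ 0 := by
    rw [hp]
    exact inv_ne_zero hs0
  have hsp : s * p = 1 := by
    rw [hp]
    exact mul_inv_cancel₀ hs0
  obtain ⟨r, hr⟩ : ∃ r : N, r = (1 - 2 * v) * MvPolynomial.aeval ![x, y] q * p ^ k := ⟨_, rfl⟩
  -- if `f = 0` the degree of `p ^ (2 k) q ^ 2` has to be checked only
  have key : r ^ 2 = MvPolynomial.aeval ![x, y, p]
      ((MvPolynomial.X 2 ^ k * up q) ^ 2 -
        MvPolynomial.C 4 * (MvPolynomial.X 2 ^ e * up f)) := by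
    rw [map_sub, map_pow, map_mul, map_pow, map_mul, map_mul, map_pow, MvPolynomial.aeval_X,
      MvPolynomial.aeval_C, aeval_up, aeval_up, hr, map_ofNat]
    change _ = (p ^ k * _) ^ 2 - 4 * (p ^ e * _)
    have h4 : p ^ e * MvPolynomial.aeval ![x, y] f =
        v * (1 - v) * MvPolynomial.aeval ![x, y] q ^ 2 * (p ^ k) ^ 2 := by
      rw [hv, ← pow_mul, mul_comm k 2, hk, pow_add]
      calc p ^ e * MvPolynomial.aeval ![x, y] f =
          (s * p) ^ n * (p ^ e * MvPolynomial.aeval ![x, y] f) := by rw [hsp, one_pow, one_mul]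
        _ = _ := by ring
    rw [h4]
    ring
  refine uni_in_wsolid h2 ![a, b, c] (by rw [Fin.sum_univ_three]; exact hpos) _ ?_ x y p r key _ ?_
  · have hW : ∑ i, (![a, b, c] : Fin 3 → ℕ) i = a + b + c := by rw [Fin.sum_univ_three]; rfl
    rw [hW]
    have hX : WD ![a, b, c] c (MvPolynomial.X 2 : MvPolynomial (Fin 3) Ω) := WD.X 2
    refine WD.sub ?_ ?_
    · by_cases hkc : k * c ≤ a + b + c
      · have h3 : WD ![a, b, c] (a + b + c - k * c) (up q) := WD.up (fun m hm => by
          have := hq m hm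
          omega)
        exact (((hX.pow k).mul h3).pow 2).mono (by omega)
      · have h3 : q.support = ∅ := by
          rw [Finset.eq_empty_iff_forall_notMem]
          intro m hm
          have := hq m hm
          omega
        have h4 : q = 0 := MvPolynomial.support_eq_empty.1 h3
        exact absurd (by rw [h4, map_zero]) hq0
    · by_cases hec : e * c ≤ 2 * (a + b + c)
      · have h3 : WD ![a, b, c] (2 * (a + b + c) - e * c) (up f) := WD.up (fun m hm => by
          have := hf m hm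
          omega)
        exact ((WD.C 4).mul ((hX.pow e).mul h3)).mono (by omega)
      · have h3 : f.support = ∅ := by
          rw [Finset.eq_empty_iff_forall_notMem]
          intro m hm
          have := hf m hm
          omega
        have h4 : f = 0 := MvPolynomial.support_eq_empty.1 h3
        rw [h4]
        unfold up
        rw [map_zero, mul_zero, mul_zero]
        intro s hs
        simp at hs
  · set M := (adjoin Ω {x, y, p, r} : IntermediateField Ω N) with hM
    have mx : x ∈ M := subset_adjoin _ _ (by simp)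
    have my : y ∈ M := subset_adjoin _ _ (by simp)
    have mp : p ∈ M := subset_adjoin _ _ (by simp)
    have mr : r ∈ M := subset_adjoin _ _ (by simp)
    have mq : MvPolynomial.aeval ![x, y] q ∈ M := mem_val15g q x y M mx my
    rintro z (rfl | rfl | rfl | rfl)
    · exact mx
    · exact my
    · have h5 : z = (1 - r / (MvPolynomial.aeval ![x, y] q * p ^ k)) / 2 := by
        rw [hr]
        field_simp
        ring
      rw [h5]
      exact div_mem (sub_mem (one_mem _) (div_mem mr (mul_mem mq (pow_mem mp _)))) (ofNat_mem M 2)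
    · have h5 : z = p⁻¹ := by rw [hp, inv_inv]
      rw [h5]
      exact inv_mem mp

end Pool.Agent.Helper15.QM
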