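import Pool.Agent.Helper15.QM.Rows
import Pool.Agent.Helper15.QM.Gpair
import Pool.Agent.Helper40.SD.Double

/-! Project QM. The final theorem with all weights: `w ^ n q(x, y) ^ 2 = f(x, y)`. -/

set_option autoImplicit false

namespace Pool.Agent.Helper15.QM

open IntermediateField Pool.Agent.Helper75.QC Pool.Agent.Helper75.TC Pool.Agent.Helper40.SD

/-- the double planes `z ^ 2 = f`, `deg f ≤ 2 (a + b)` -/
theorem uni_dbl {Ω N : Type} [Field Ω] [IsAlgClosed Ω] [Field N] [Algebra Ω N]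
    (h2 : (2 : Ω) ≠ 0) (f : MvPolynomial (Fin 2) Ω) (a b : ℕ) (hpos : 0 < a + b)
    (hf : ∀ m ∈ f.support, a * m 0 + b * m 1 ≤ 2 * (a + b)) (x y z : N)
    (hz : z ^ 2 = MvPolynomial.aeval ![x, y] f) :
    Uniruled Ω (adjoin Ω {x, y, z} : IntermediateField Ω N) 2 := by
  set K := (adjoin Ω {x, y, z} : IntermediateField Ω N) with hK
  have mx : x ∈ K := subset_adjoin _ _ (by simp)
  have my : y ∈ K := subset_adjoin _ _ (by simp)
  have mz : z ∈ K := subset_adjoin _ _ (by simp)
  set X : K := ⟨x, mx⟩ with hX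
  set Y : K := ⟨y, my⟩ with hY
  set Z : K := ⟨z, mz⟩ with hZ
  have hval : ∀ f : MvPolynomial (Fin 2) Ω, ((MvPolynomial.aeval ![X, Y] f : K) : N) =
      MvPolynomial.aeval ![x, y] f := fun f => map_aeval75 K.val X Y f
  refine uni_quad_equiv (finSuccEquiv 1) h2 ![a, b] (a + b) hpos
    (by rw [Fin.sum_univ_two]; simp) 0 f ?_ ![X, Y] Z ?_ ?_
  · intro m hm
    have h1 : (0 : MvPolynomial (Fin 2) Ω) ^ 2 + 4 * f = MvPolynomial.C 4 * f := by
      rw [map_ofNat]
      ring
    rw [h1, MvPolynomial.mem_support_iff, MvPolynomial.coeff_C_mul] at hm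
    have h3 := hf m (MvPolynomial.mem_support_iff.2 (right_ne_zero_of_mul hm))
    rw [Fin.sum_univ_two]
    simp only [Matrix.cons_val_zero, Matrix.cons_val_one]
    nlinarith
  · apply Subtype.ext
    change z ^ 2 = ((MvPolynomial.aeval ![X, Y] (0 : MvPolynomial (Fin 2) Ω) : K) : N) * z +
      ((MvPolynomial.aeval ![X, Y] f : K) : N)
    rw [hval, hval, hz, map_zero, zero_mul, zero_add]
  · apply lift_injective K
    rw [lift_top, lift_adjoin]
    have h1 : Subtype.val '' (Set.range ![X, Y] ∪ {Z}) = {x, y, z} := by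
      ext a
      simp only [Set.mem_image, Set.mem_union, Set.mem_range, Set.mem_singleton_iff,
        Set.mem_insert_iff]
      constructor
      · rintro ⟨b, ⟨i, rfl⟩ | rfl, rfl⟩
        · fin_cases i
          · exact Or.inl rfl
          · exact Or.inr (Or.inl rfl)
        · exact Or.inr (Or.inr rfl)
      · rintro (rfl | rfl | rfl)
        · exact ⟨X, Or.inl ⟨0, rfl⟩, rfl⟩
        · exact ⟨Y, Or.inl ⟨1, rfl⟩, rfl⟩
        · exact ⟨Z, Or.inr rfl, rfl⟩
    rw [h1]

/-- **The surfaces `w ^ n q ^ 2 = f`.** -/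
theorem final_gpair {Ω L G : Type} [Field Ω] [IsAlgClosed Ω] [CharZero Ω] [Field L]
    [IsAlgClosed L] [CharZero L] [Group G] (T : MotivicTheory Ω L G)
    (f q : MvPolynomial (Fin 2) Ω) (a b c k e n : ℕ) (hn : 0 < n) (hk : 2 * k = n + e)
    (hpos : 0 < a + b + c)
    (hf : ∀ m ∈ f.support, a * m 0 + b * m 1 + e * c ≤ 2 * (a + b + c))
    (hq : ∀ m ∈ q.support, a * m 0 + b * m 1 + k * c ≤ a + b + c)
    {K : Type} [Field K] [Algebra Ω K] (x y w : K) (hK : adjoin Ω {x, y, w} = ⊤)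
    (hdeg : Module.finrank (adjoin Ω {x, y}) K = n) (hq0 : MvPolynomial.aeval ![x, y] q ≠ 0)
    (hw : w ^ n * MvPolynomial.aeval ![x, y] q ^ 2 = MvPolynomial.aeval ![x, y] f)
    (γ : G) (hγ : T.IsTrivialOnAbelian γ)
    (hD : Odd n ∨ c = 0 ∨
      ∀ s : T.H 2 (adjoin Ω {x, y, w ^ (n / 2)} : IntermediateField Ω K),
        T.act 2 (adjoin Ω {x, y, w ^ (n / 2)} : IntermediateField Ω K) γ s = s)
    (t : T.H 2 K) : T.act 2 K γ t = t := by
  have hn' : (n : Ω) ≠ 0 := by exact_mod_cast hn.ne'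
  have h2 : (2 : Ω) ≠ 0 := two_ne_zero
  have hwF : w ^ n ∈ adjoin Ω {x, y} := by
    have h1 : w ^ n = MvPolynomial.aeval ![x, y] f * (MvPolynomial.aeval ![x, y] q ^ 2)⁻¹ := by
      rw [← hw]
      field_simp
    rw [h1]
    exact mul_mem (aeval_mem75 x y f) (inv_mem (pow_mem (aeval_mem75 x y q) _))
  by_cases hw0 : w = 0
  · have h0 : ∀ t : T.H 2 K, t = 0 := by
      refine plane_zero T.toBaseTheory x y ?_
      rw [eq_top_iff, ← hK, adjoin_le_iff]
      rintro s (rfl | rfl | rfl)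
      · exact subset_adjoin _ _ (by simp)
      · exact subset_adjoin _ _ (by simp)
      · rw [hw0]
        exact zero_mem _
    rw [h0 (T.act 2 K γ t), h0 t]
  refine main_double T hn hn' x y w hK hw0 hwF hdeg ?_ γ hγ ?_ t
  · intro N _ _ g v s hv hs
    obtain ⟨hv0, hv1⟩ := sub_ne_of_not_mem _ v (not_mem_of_trans g x y v hv)
    rw [pow_one, pow_one] at hs
    refine uni_gpair h2 f q a b c k e n hk hpos hf hq (g x) (g y) v s ?_ ?_ ?_
    · rw [← map_aeval75]
      exact (map_ne_zero g).2 hq0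
    · rintro rfl
      rw [zero_pow hn.ne', zero_mul] at hs
      exact mul_ne_zero hv0 hv1 hs
    · rw [← map_aeval75, ← map_aeval75, hs, ← hw, map_mul, map_pow, map_pow]
      ring
  · intro m hm s
    have hm2 : n / 2 = m := by omega
    rcases hD with h | h | h
    · exact absurd (even_iff_two_dvd.2 ⟨m, hm⟩) (Nat.not_even_iff_odd.2 h)
    · subst h
      obtain ⟨r, hr⟩ : ∃ r : K, r = w ^ m * MvPolynomial.aeval ![x, y] q := ⟨_, rfl⟩
      have h3 := uni_dbl h2 f a b (by simpa using hpos)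
        (fun m hm => by simpa using hf m hm) x y r (by
        rw [← hw, hr, hm]
        ring)
      have h4 : Uniruled Ω (adjoin Ω {x, y, w ^ m} : IntermediateField Ω K) 2 := by
        refine uniruled_adjoin (AlgHom.id Ω K) _ _ ?_ h3
        have mx : x ∈ adjoin Ω {x, y, r} := subset_adjoin _ _ (by simp)
        have my : y ∈ adjoin Ω {x, y, r} := subset_adjoin _ _ (by simp)
        have mr : r ∈ adjoin Ω {x, y, r} := subset_adjoin _ _ (by simp)
        rintro z (rfl | rfl | rfl)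
        · exact mx
        · exact my
        · have hqM : MvPolynomial.aeval ![x, y] q ∈ adjoin Ω {x, y, r} :=
            (adjoin_le_iff.2 (by rintro b (rfl | rfl) <;> assumption)) (aeval_mem75 x y q)
          have h5 : w ^ m = r / MvPolynomial.aeval ![x, y] q := by
            rw [hr]
            field_simp
          change w ^ m ∈ adjoin Ω {x, y, r}
          rw [h5]
          exact div_mem mr hqM
      rw [T.uniruled 2 _ h4 s, T.uniruled 2 _ h4 (T.act 2 _ γ 0)]
    · subst hm2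
      exact h s

/-- the surfaces dominated by the surfaces `w ^ n q ^ 2 = f` -/
theorem final3 {Ω L G : Type} [Field Ω] [IsAlgClosed Ω] [CharZero Ω] [Field L]
    [IsAlgClosed L] [CharZero L] [Group G] (T : MotivicTheory Ω L G)
    (f q : MvPolynomial (Fin 2) Ω) (a b c k e n : ℕ) (hn : 0 < n) (hk : 2 * k = n + e)
    (hpos : 0 < a + b + c)
    (hf : ∀ m ∈ f.support, a * m 0 + b * m 1 + c * e ≤ 2 * (a + b + c))
    (hq : ∀ m ∈ q.support, a * m 0 + b * m 1 + c * k ≤ a + b + c)
    {K₀ K : Type} [Field K₀] [Algebra Ω K₀] [Field K] [Algebra Ω K] (x y w : K)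
    (hK : adjoin Ω {x, y, w} = ⊤)
    (hdeg : Module.finrank (adjoin Ω {x, y}) K = n) (hq0 : MvPolynomial.aeval ![x, y] q ≠ 0)
    (hw : w ^ n * MvPolynomial.aeval ![x, y] q ^ 2 = MvPolynomial.aeval ![x, y] f)
    (γ : G) (hγ : T.IsTrivialOnAbelian γ)
    (hD : Odd n ∨ c = 0 ∨
      ∀ s : T.H 2 (adjoin Ω {x, y, w ^ (n / 2)} : IntermediateField Ω K),
        T.act 2 (adjoin Ω {x, y, w ^ (n / 2)} : IntermediateField Ω K) γ s = s)
    (ι : K₀ →ₐ[Ω] K) (hι : ∀ k : K, IsAlgebraic ι.fieldRange k) (t : T.H 2 K₀) :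
    T.act 2 K₀ γ t = t := by
  refine dominated T 2 ι hι γ (fun t => ?_) t
  exact final_gpair T f q a b c k e n hn hk hpos (fun m hm => by
    have := hf m hm
    rw [mul_comm e c]
    exact this) (fun m hm => by
    have := hq m hm
    rw [mul_comm k c]
    exact this) x y w hK hdeg hq0 hw γ hγ hD t

end Pool.Agent.Helper15.QM
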