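import Pool.Agent.Helper75.QC.Cross
import Pool.Agent.Helper75.QC.Quad

/-! Project QM. Kummer theory and the cross product over an arbitrary intermediate field
(`Helper75/QC/Kummer.lean`, `Helper75/QC/Cross.lean` with the field generated by `x` and `y`
replaced by any field `M₀` with `w ^ n ∈ M₀`). -/

set_option autoImplicit false

namespace Pool.Agent.Helper15.QM.Gen

open IntermediateField Polynomial Pool.Agent.Helper75.QC

/-- the field generated by one element over an intermediate field -/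
private lemma adj_top {Ω : Type} [Field Ω] {K : Type} [Field K] [Algebra Ω K] (N : IntermediateField Ω K) (w : K)
    (hK : ∀ M : IntermediateField Ω K, N ≤ M → w ∈ M → M = ⊤) : N⟮w⟯ = ⊤ := by
  have h := hK (N⟮w⟯.restrictScalars Ω) ?_ ?_
  · rw [eq_top_iff]
    intro a _
    have ha : a ∈ N⟮w⟯.restrictScalars Ω := by
      rw [h]
      exact mem_top
    exact ha
  · intro a ha
    rw [mem_restrictScalars]
    exact (N⟮w⟯).algebraMap_mem (⟨a, ha⟩ : N)
  · rw [mem_restrictScalars]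
    exact mem_adjoin_simple_self N w

theorem kummer_sigma {Ω : Type} [Field Ω] {K : Type} [Field K] [Algebra Ω K] {n : ℕ} (hn : 0 < n) (hn' : (n : Ω) ≠ 0)
    {ζ : Ω} (hζ : ζ ^ n = 1) (N : IntermediateField Ω K) (w : K)
    (hK : adjoin Ω ((N : Set K) ∪ {w}) = ⊤)
    (hw : w ^ n ∈ N) (hdeg : Module.finrank N K = n) :
    ∃ σ : K →ₐ[Ω] K, (∀ k ∈ N, σ k = k) ∧ σ w = algebraMap Ω K ζ * w := by
  have htop : N⟮w⟯ = ⊤ := by
    apply adj_top N w
    intro M hM hwM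
    rw [eq_top_iff, ← hK, adjoin_le_iff]
    intro s hs
    rcases hs with h | h
    · exact hM h
    · rw [Set.mem_singleton_iff.1 h]
      exact hwM
  obtain ⟨a, ha⟩ : ∃ a : N, a = ⟨w ^ n, hw⟩ := ⟨_, rfl⟩
  have haK : algebraMap N K a = w ^ n := by
    rw [ha]
    rfl
  have hev : ∀ z : K, z ^ n = w ^ n → aeval z (X ^ n - C a : N[X]) = 0 := by
    intro z hz
    rw [map_sub, map_pow, aeval_X, aeval_C, haK, hz, sub_self]
  have hint : IsIntegral N w :=
    ⟨X ^ n - C a, monic_X_pow_sub_C a hn.ne', by rw [← aeval_def]; exact hev w rfl⟩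
  have hd : (minpoly N w).natDegree = n := by
    rw [← adjoin.finrank hint, htop, finrank_top', hdeg]
  have hdvd : minpoly N w ∣ (X ^ n - C a : N[X]) := minpoly.dvd N w (hev w rfl)
  have heq : minpoly N w = X ^ n - C a := by
    refine (Polynomial.eq_of_monic_of_dvd_of_natDegree_le (minpoly.monic hint)
      (monic_X_pow_sub_C a hn.ne') hdvd ?_).symm
    rw [natDegree_X_pow_sub_C, hd]
  have hz : aeval (algebraMap Ω K ζ * w) (minpoly N w) = 0 := by
    rw [heq]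
    apply hev
    rw [mul_pow, ← map_pow, hζ, map_one, one_mul]
  have hmem : algebraMap Ω K ζ * w ∈ (minpoly N w).aroots K := by
    rw [mem_aroots]
    exact ⟨minpoly.ne_zero hint, hz⟩
  obtain ⟨φ, hφ⟩ : ∃ φ : N⟮w⟯ →ₐ[N] K, φ (AdjoinSimple.gen N w) = algebraMap Ω K ζ * w :=
    ⟨(algHomAdjoinIntegralEquiv N hint).symm ⟨_, hmem⟩,
      algHomAdjoinIntegralEquiv_symm_apply_gen N hint ⟨_, hmem⟩⟩
  have hall : ∀ z : K, z ∈ N⟮w⟯ := fun z => by
    rw [htop]
    exact mem_top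
  obtain ⟨ψ, hψ⟩ : ∃ ψ : K →ₐ[N] N⟮w⟯, ∀ z, ψ z = ⟨z, hall z⟩ :=
    ⟨{ toFun := fun z => ⟨z, hall z⟩
       map_one' := rfl
       map_mul' := fun _ _ => rfl
       map_zero' := rfl
       map_add' := fun _ _ => rfl
       commutes' := fun _ => rfl }, fun _ => rfl⟩
  have hc : ∀ b : N, (φ.comp ψ) b = b := fun b => (φ.comp ψ).commutes b
  refine ⟨(φ.comp ψ).restrictScalars Ω, ?_, ?_⟩
  · exact fun k hk => hc ⟨k, hk⟩
  · rw [AlgHom.restrictScalars_apply, AlgHom.comp_apply, hψ]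
    exact hφ

/-- the powers of an endomorphism which multiplies a generator by a constant -/
private theorem pow_apply_12 {Ω : Type} [Field Ω] {K : Type} [Field K] [Algebra Ω K]
    (σ : K →ₐ[Ω] K) {c : Ω} {w : K} (h : σ w = algebraMap Ω K c * w) (j : ℕ) :
    (σ ^ j) w = algebraMap Ω K c ^ j * w := by
  induction j with
  | zero => simp
  | succ j ih =>
    rw [pow_succ, AlgHom.mul_apply, h, map_mul, ih, AlgHom.commutes, pow_succ]
    ring

private theorem pow_fix_12 {Ω : Type} [Field Ω] {K : Type} [Field K] [Algebra Ω K]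
    (σ : K →ₐ[Ω] K) {x : K} (h : σ x = x) (j : ℕ) : (σ ^ j) x = x := by
  induction j with
  | zero => simp
  | succ j ih => rw [pow_succ, AlgHom.mul_apply, h, ih]

private theorem map_pow_12 {Ω L : Type} [Field Ω] [Field L] (T : BaseTheory Ω L) (i : ℕ)
    {K : Type} [Field K] [Algebra Ω K] (σ : K →ₐ[Ω] K) {c : L} {t : T.H i K}
    (h : T.map i σ t = c • t) (j : ℕ) : T.map i (σ ^ j) t = c ^ j • t := by
  induction j with
  | zero =>
    rw [pow_zero, pow_zero, one_smul]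
    exact LinearMap.congr_fun (T.map_id i K) t
  | succ j ih =>
    have h1 : T.map i (σ ^ (j + 1)) t = T.map i (σ ^ j) (T.map i σ t) := by
      rw [pow_succ]
      exact LinearMap.congr_fun (T.map_comp i σ (σ ^ j)) t
    rw [h1, h, map_smul, ih, smul_smul, pow_succ']

theorem cross_zero {Ω L : Type} [Field Ω] [Field L] (T : BaseTheory Ω L) {n : ℕ}
    (hn : 0 < n) (hn' : (n : Ω) ≠ 0) {ζ : Ω} (hζ : IsPrimitiveRoot ζ n)
    {K C N : Type} [Field K] [Algebra Ω K] [Field C] [Algebra Ω C] [Field N] [Algebra Ω N]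
    (a : K →ₐ[Ω] N) (b : C →ₐ[Ω] N) (M₀ : IntermediateField Ω K) (w : K) (v u : C)
    (hK : adjoin Ω ((M₀ : Set K) ∪ {w}) = ⊤)
    (hC : adjoin Ω {v, u} = ⊤) (hN : adjoin Ω (Set.range a ∪ {b v, b u}) = ⊤) (hw0 : w ≠ 0)
    (hw : w ^ n ∈ M₀)
    (σ : K →ₐ[Ω] K) (hσ : (∀ k ∈ M₀, σ k = k) ∧ σ w = algebraMap Ω K ζ * w)
    (σ' : C →ₐ[Ω] C) (hσ' : σ' v = v ∧ σ' u = algebraMap Ω C ζ * u)
    (huni : ∀ z : T.H 3 (adjoin Ω (a '' (M₀ : Set K) ∪ {b v, b u / a w}) : IntermediateField Ω N),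
      z = 0)
    (ξ : L) (hξ : ξ ≠ 0) (t : T.H 2 K) (ht : T.map 2 σ t = ξ • t) (z : T.H 1 C)
    (hz : T.map 1 σ' z = ξ⁻¹ • z) : T.cup N (T.map 2 a t) (T.map 1 b z) = 0 := by
  have haw : a w ≠ 0 := (map_ne_zero a).2 hw0
  set N0 : IntermediateField Ω N := adjoin Ω (a '' (M₀ : Set K) ∪ {b v, b u / a w}) with hN0
  have hbv : b v ∈ N0 := subset_adjoin Ω _ (by simp)
  have hbu : b u / a w ∈ N0 := subset_adjoin Ω _ (by simp)
  -- the image of `M₀`
  have hxy : ∀ k ∈ M₀, a k ∈ N0 := by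
    intro k hk
    exact subset_adjoin Ω _ (Or.inl ⟨k, hk, rfl⟩)
  have hpow : a w ^ n ∈ N0 := by
    rw [← map_pow]
    exact hxy _ hw
  -- fields which contain `N0` and `a w`
  have htop : ∀ M : IntermediateField Ω N, N0 ≤ M → a w ∈ M → M = ⊤ := by
    intro M hM hawM
    rw [eq_top_iff, ← hN, adjoin_le_iff]
    rintro m (⟨k, rfl⟩ | rfl | rfl)
    · have h1 : (⊤ : IntermediateField Ω K) ≤ M.comap a := by
        rw [← hK, adjoin_le_iff]
        rintro k (hk | rfl)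
        · exact hM (hxy k hk)
        · exact hawM
      exact h1 (mem_top (x := k))
    · exact hM hbv
    · have h1 : b u = b u / a w * a w := by field_simp
      rw [h1]
      exact M.mul_mem (hM hbu) hawM
  obtain ⟨hfin, hgal, hτ⟩ := kummer_gal N0 hn hn' hζ (a w) haw hpow htop
  -- the class is fixed
  have hfix : ∀ τ : N →ₐ[N0] N, T.map 3 (τ.restrictScalars Ω)
      (T.cup N (T.map 2 a t) (T.map 1 b z)) = T.cup N (T.map 2 a t) (T.map 1 b z) := by
    intro τ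
    obtain ⟨j, hj⟩ := hτ τ
    have hfixN : ∀ m ∈ N0, τ m = m := fun m hm => τ.commutes ⟨m, hm⟩
    have e1 : (τ.restrictScalars Ω).comp a = a.comp (σ ^ j) := by
      refine hom_ext _ hK _ _ ?_
      rintro k (hk | rfl)
      · rw [AlgHom.comp_apply, AlgHom.comp_apply, pow_fix_12 σ (hσ.1 k hk)]
        exact hfixN _ (hxy k hk)
      · rw [AlgHom.comp_apply, AlgHom.comp_apply, pow_apply_12 σ hσ.2, map_mul, map_pow,
          AlgHom.commutes]
        exact hj
    have e2 : (τ.restrictScalars Ω).comp b = b.comp (σ' ^ j) := by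
      refine hom_ext _ hC _ _ ?_
      rintro k (rfl | rfl)
      · rw [AlgHom.comp_apply, AlgHom.comp_apply, pow_fix_12 σ' hσ'.1]
        exact hfixN _ hbv
      · rw [AlgHom.comp_apply, AlgHom.comp_apply, pow_apply_12 σ' hσ'.2, map_mul, map_pow,
          AlgHom.commutes]
        change τ (b k) = _
        have h1 : b k = b k / a w * a w := by field_simp
        rw [h1, map_mul, hfixN _ hbu, hj]
        ring
    have m2 : T.map 2 (τ.restrictScalars Ω) (T.map 2 a t) = ξ ^ j • T.map 2 a t := by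
      have h1 : T.map 2 (τ.restrictScalars Ω) (T.map 2 a t) =
          T.map 2 ((τ.restrictScalars Ω).comp a) t :=
        (LinearMap.congr_fun (T.map_comp 2 a (τ.restrictScalars Ω)) t).symm
      have h2 : T.map 2 (a.comp (σ ^ j)) t = T.map 2 a (T.map 2 (σ ^ j) t) :=
        LinearMap.congr_fun (T.map_comp 2 (σ ^ j) a) t
      rw [h1, e1, h2, map_pow_12 T 2 σ ht j, map_smul]
    have m1 : T.map 1 (τ.restrictScalars Ω) (T.map 1 b z) = ξ⁻¹ ^ j • T.map 1 b z := by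
      have h1 : T.map 1 (τ.restrictScalars Ω) (T.map 1 b z) =
          T.map 1 ((τ.restrictScalars Ω).comp b) z :=
        (LinearMap.congr_fun (T.map_comp 1 b (τ.restrictScalars Ω)) z).symm
      have h2 : T.map 1 (b.comp (σ' ^ j)) z = T.map 1 b (T.map 1 (σ' ^ j) z) :=
        LinearMap.congr_fun (T.map_comp 1 (σ' ^ j) b) z
      rw [h1, e2, h2, map_pow_12 T 1 σ' hz j, map_smul]
    rw [T.map_cup, m2, m1, LinearMap.map_smul₂, map_smul, smul_smul, ← mul_pow,
      mul_inv_cancel₀ hξ, one_pow, one_smul]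
  obtain ⟨z', hz'⟩ := T.descent 3 N N0 (T.cup N (T.map 2 a t) (T.map 1 b z)) hfix
  rw [← hz', huni z', map_zero]

/-- every `τ` over `N ⊇ M₀` is a power of `σ` -/
theorem tau_eq {Ω : Type} [Field Ω] {K : Type} [Field K] [Algebra Ω K]
    (N : IntermediateField Ω K) (M₀ : IntermediateField Ω K) (w : K)
    (hK : adjoin Ω ((M₀ : Set K) ∪ {w}) = ⊤) (hM : M₀ ≤ N) (ζ : Ω) (σ : K →ₐ[Ω] K)
    (hσ : (∀ k ∈ M₀, σ k = k) ∧ σ w = algebraMap Ω K ζ * w) (τ : K →ₐ[N] K) (j : ℕ)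
    (hj : τ w = algebraMap Ω K ζ ^ j * w) : τ.restrictScalars Ω = σ ^ j := by
  apply hom_ext _ hK
  rintro s (hs | rfl)
  · rw [pow_fix_12 σ (hσ.1 s hs) j]
    exact τ.commutes ⟨_, hM hs⟩
  · rw [pow_apply_12 σ hσ.2 j]
    exact hj

/-- Classes with `σ^d t = t`, `n = d m`, come from `M₀(w^m)`. -/
theorem eigen_zero_gen {Ω L : Type} [Field Ω] [Field L] (T : BaseTheory Ω L) {n d m : ℕ}
    (hn : 0 < n) (hn' : (n : Ω) ≠ 0) (hdm : n = d * m) {ζ : Ω} (hζ : IsPrimitiveRoot ζ n)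
    {K : Type} [Field K] [Algebra Ω K] (M₀ : IntermediateField Ω K) (w : K)
    (hK : adjoin Ω ((M₀ : Set K) ∪ {w}) = ⊤) (hw0 : w ≠ 0)
    (hw : w ^ n ∈ M₀) (σ : K →ₐ[Ω] K)
    (hσ : (∀ k ∈ M₀, σ k = k) ∧ σ w = algebraMap Ω K ζ * w)
    (huni : Uniruled Ω (adjoin Ω ((M₀ : Set K) ∪ {w ^ m}) : IntermediateField Ω K) 2)
    (t : T.H 2 K) (ht : (T.map 2 σ ^ d) t = t) : t = 0 := by
  have hev : ∀ k : ℕ, (T.map 2 σ ^ (d * k)) t = t := by
    intro k
    induction k with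
    | zero => simp
    | succ k ih => rw [Nat.mul_succ, pow_add, Module.End.mul_apply, ht, ih]
  set N0 : IntermediateField Ω K := adjoin Ω ((M₀ : Set K) ∪ {w ^ m}) with hN0
  have hM : M₀ ≤ N0 := fun k hk => subset_adjoin Ω _ (Or.inl hk)
  have hwm : w ^ m ∈ N0 := subset_adjoin Ω _ (Or.inr rfl)
  obtain ⟨g1, g2, g3⟩ := kummer_gal N0 hn hn' hζ w hw0 (hM hw) (by
    intro M h1 h2
    rw [eq_top_iff, ← hK, adjoin_le_iff]
    rintro s (hs | rfl)
    · exact h1 (hM hs)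
    · exact h2)
  have hfix : ∀ τ : K →ₐ[N0] K, T.map 2 (τ.restrictScalars Ω) t = t := by
    intro τ
    obtain ⟨j, hj⟩ := g3 τ
    rw [tau_eq N0 M₀ w hK hM ζ σ hσ τ j hj, tmap_pow75]
    have h3 : τ (w ^ m) = w ^ m := τ.commutes ⟨_, hwm⟩
    rw [_root_.map_pow, hj, mul_pow, ← pow_mul] at h3
    have h4 : algebraMap Ω K (ζ ^ (j * m)) = 1 := by
      rw [_root_.map_pow]
      exact mul_right_cancel₀ (pow_ne_zero m hw0) (h3.trans (one_mul _).symm)
    have h5 : ζ ^ (j * m) = 1 := by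
      apply (algebraMap Ω K).injective
      rw [h4, _root_.map_one]
    have h6 := hζ.dvd_of_pow_eq_one _ h5
    rw [hdm] at h6
    have hm0 : 0 < m := by
      rcases Nat.eq_zero_or_pos m with h | h
      · rw [hdm, h, mul_zero] at hn
        exact absurd hn (lt_irrefl 0)
      · exact h
    have h7 : d ∣ j := Nat.dvd_of_mul_dvd_mul_right hm0 h6
    obtain ⟨k, rfl⟩ := h7
    exact hev k
  obtain ⟨s, hs⟩ := T.descent 2 K N0 t hfix
  rw [← hs, T.uniruled 2 N0 huni s, _root_.map_zero]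

/-- The exceptional eigenvalues `ξ = 1`, `ξ = -1`. -/
theorem exc_two {Ω L : Type} [Field Ω] [Field L] (T : BaseTheory Ω L) {n : ℕ}
    (hn : 0 < n) (hn' : (n : Ω) ≠ 0) {ζ : Ω} (hζ : IsPrimitiveRoot ζ n)
    {K : Type} [Field K] [Algebra Ω K] (M₀ : IntermediateField Ω K) (w : K)
    (hK : adjoin Ω ((M₀ : Set K) ∪ {w}) = ⊤) (hw0 : w ≠ 0)
    (hw : w ^ n ∈ M₀) (σ : K →ₐ[Ω] K)
    (hσ : (∀ k ∈ M₀, σ k = k) ∧ σ w = algebraMap Ω K ζ * w)
    (huni1 : Uniruled Ω M₀ 2)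
    (huni2 : ∀ m : ℕ, n = 2 * m →
      Uniruled Ω (adjoin Ω ((M₀ : Set K) ∪ {w ^ m}) : IntermediateField Ω K) 2)
    (ξ : L) (hξn : ξ ^ n = 1) (hξ2 : ξ ^ 2 = 1) (t : T.H 2 K) (ht : T.map 2 σ t = ξ • t) :
    t = 0 := by
  have hpow : ∀ j : ℕ, (T.map 2 σ ^ j) t = ξ ^ j • t := by
    intro j
    induction j with
    | zero => simp
    | succ j ih => rw [pow_succ, Module.End.mul_apply, ht, map_smul, ih, smul_smul, pow_succ, mul_comm]
  rcases Nat.even_or_odd' n with ⟨m, hm | hm⟩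
  · refine eigen_zero_gen T hn hn' hm hζ M₀ w hK hw0 hw σ hσ (huni2 m hm) t ?_
    rw [hpow, hξ2, one_smul]
  · have hξ1 : ξ = 1 := by
      have h1 : ξ ^ n = ξ := by rw [hm, pow_succ, pow_mul, hξ2, one_pow, one_mul]
      rw [← h1, hξn]
    have h2 : adjoin Ω ((M₀ : Set K) ∪ {w ^ n}) = M₀ := by
      apply le_antisymm
      · rw [adjoin_le_iff]
        rintro s (hs | rfl)
        · exact hs
        · exact hw
      · exact fun k hk => subset_adjoin Ω _ (Or.inl hk)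
    refine eigen_zero_gen T hn hn' (one_mul n).symm hζ M₀ w hK hw0 hw σ hσ ?_ t ?_
    · rw [h2]
      exact huni1
    · rw [hpow, hξ1, one_pow, one_smul]

end Pool.Agent.Helper15.QM.Gen
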