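import Pool.Agent.Helper15.QM.Tower

/-! Project QM. The list of surfaces and the final theorem. -/

set_option autoImplicit false

namespace Pool.Agent.Helper15.QM

open IntermediateField Pool.Agent.Helper75.QC Pool.Agent.Helper75.TC Pool.Agent.Helper35.TD
  Pool.Agent.Helper40.SD

/-- a sextic, `n = 3` -/
theorem input_sextic {Ω L : Type} [Field Ω] [IsAlgClosed Ω] [Field L] (T : BaseTheory Ω L)
    (h3 : ((3 : ℕ) : Ω) ≠ 0) (f : MvPolynomial (Fin 2) Ω) (hf : f.totalDegree ≤ 6) {K : Type}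
    [Field K] [Algebra Ω K] (x y w : K) (hK : adjoin Ω {x, y, w} = ⊤)
    (hdeg : Module.finrank (adjoin Ω {x, y}) K = 3)
    (hw : w ^ 3 = MvPolynomial.aeval ![x, y] f) : Input T 3 x y w := by
  have hwF : w ^ 3 ∈ adjoin Ω {x, y} := by
    rw [hw]
    exact aeval_mem75 x y f
  by_cases hw0 : w = 0
  · refine ⟨hK, hdeg, hwF, Or.inl (uniruled_of_gen hK ?_)⟩
    refine uni_plane75 x y w ?_
    rw [hw0]
    exact zero_mem _
  exact ⟨hK, hdeg, hwF, Or.inr ⟨hw0, 1, 1, by simp,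
    fun N _ _ ι v s hv hs => huni_D f hf x y w hw N ι v s hv hs,
    fun ζ σ hζ h1 h2 h4 ξ t hξ hξ' ht => hexc_C T (by norm_num) (by norm_num) h3 x y w hK hw0 hwF
      ζ σ hζ h1 h2 h4 ξ t hξ hξ' ht⟩⟩

end Pool.Agent.Helper15.QM
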