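import Pool.Agent.Helper15.QM.Defs
import Pool.Agent.Helper15.QM.Core

/-! Project QM. The motives of the surfaces `w^n = f(x, y)`, `deg f ≤ 4`, are abelian. -/

set_option autoImplicit false

namespace Pool.Agent.Helper15.QM

open IntermediateField TensorProduct Pool.Agent.Helper75.QC

/-- the general form: the geometric input is `huni` and `hexc` -/
theorem main_gen {Ω L G : Type} [Field Ω] [IsAlgClosed Ω] [Field L] [IsAlgClosed L]
    [CharZero L] [Group G] (T : MotivicTheory Ω L G) (α β : ℕ) {n : ℕ}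
    (hn : 0 < n) (hn' : (n : Ω) ≠ 0) (hab : (α.gcd β).Coprime n) {K : Type}
    [Field K] [Algebra Ω K] (hfin : (⊤ : IntermediateField Ω K).FG) (x y : K)
    (hxy : ∀ k : K, k ∈ Acl Ω {x, y}) (M₀ : IntermediateField Ω K) (w : K)
    (hK : adjoin Ω ((M₀ : Set K) ∪ {w}) = ⊤) (hw0 : w ≠ 0) (hw : w ^ n ∈ M₀)
    (hdeg : Module.finrank M₀ K = n)
    (huni : ∀ (N : Type) [Field N] [Algebra Ω N] (g : K →ₐ[Ω] N) (v s : N),
      Transcendental g.fieldRange v → v ^ α * (1 - v) ^ β = s ^ n * g w ^ n →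
      Uniruled Ω (adjoin Ω (g '' (M₀ : Set K) ∪ {v, s}) : IntermediateField Ω N) 3)
    (hexc : ∀ (ζ : Ω) (σ : K →ₐ[Ω] K), IsPrimitiveRoot ζ n → (∀ k ∈ M₀, σ k = k) →
      σ w = algebraMap Ω K ζ * w → ∀ (ξ : L) (t : T.H 2 K), ξ ^ n = 1 →
      (ξ ^ α = 1 ∨ ξ ^ β = 1 ∨ ξ ^ (α + β) = 1) → T.map 2 σ t = ξ • t → t = 0)
    (γ : G) (hγ : T.IsTrivialOnAbelian γ) (t : T.H 2 K) : T.act 2 K γ t = t := by
  classical
  obtain ⟨ζ, σ, hζ, -, hσ, hσn, key⟩ :=
    kummer_gen T.toBaseTheory α β hn hn' hab M₀ w hK hw0 hw hdeg huni hexc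
  -- the eigenclasses
  have heig : ∀ (ξ : L) (t : T.H 2 K), T.map 2 σ t = ξ • t → T.act 2 K γ t = t := by
    intro ξ t ht
    by_cases ht0 : t = 0
    · rw [ht0, map_zero]
    obtain ⟨C, N, iC, jC, iN, jN, v, a, b, z, hC, hv, hbv, -, hz, h0⟩ := key ξ t ht ht0
    obtain ⟨D, iD, jD, g, hD, heq, hker⟩ := T.gysin a b x y v hfin hC hxy hv hbv
    obtain ⟨s, hs⟩ := (hker (t ⊗ₜ z)).1 (by
      rw [TensorProduct.lift.tmul]
      exact h0)
    have h1 := heq γ s
    rw [hγ.2 D hD s, hγ.1, inv_one, one_smul, hs, TensorProduct.map_tmul, hγ.2 C hC z] at h1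
    obtain ⟨ξ', hξ'⟩ : ∃ ξ' : Module.Dual L (T.H 1 C), ξ' z ≠ 0 := by
      by_contra hcon
      push Not at hcon
      exact hz ((Module.forall_dual_apply_eq_zero_iff L z).1 hcon)
    have h2 := congrArg (fun r => TensorProduct.rid L (T.H 2 K) (ξ'.lTensor (T.H 2 K) r)) h1
    simp only [LinearMap.lTensor_tmul, TensorProduct.rid_tmul] at h2
    exact smul_right_injective _ hξ' h2
  -- the eigenclasses generate
  have hAn : (T.map 2 σ : Module.End L (T.H 2 K)) ^ n = 1 := by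
    rw [← tmap_pow75, hσn]
    exact T.map_id 2 K
  have hfd : FiniteDimensional L (T.H 2 K) := T.fin 2 K hfin
  have hss : Module.End.IsSemisimple (T.map 2 σ : Module.End L (T.H 2 K)) := by
    have hnL : (n : L) ≠ 0 := by exact_mod_cast hn.ne'
    refine Module.End.isSemisimple_of_squarefree_aeval_eq_zero
      (p := Polynomial.X ^ n - Polynomial.C 1)
      (Polynomial.separable_X_pow_sub_C (1 : L) hnL one_ne_zero).squarefree ?_
    simp [hAn]
  have htop := hss.iSup_eigenspace_eq_top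
  have hle : (⨆ ξ, Module.End.eigenspace (T.map 2 σ : Module.End L (T.H 2 K)) ξ) ≤
      LinearMap.eqLocus (T.act 2 K γ) LinearMap.id := by
    refine iSup_le fun ξ t ht => ?_
    exact heig ξ t (Module.End.mem_eigenspace_iff.1 ht)
  rw [htop] at hle
  exact hle (Submodule.mem_top (x := t))

/-- the general form for a covering of the plane -/
theorem main_xy {Ω L G : Type} [Field Ω] [IsAlgClosed Ω] [Field L] [IsAlgClosed L]
    [CharZero L] [Group G] (T : MotivicTheory Ω L G) (α β : ℕ) {n : ℕ}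
    (hn : 0 < n) (hn' : (n : Ω) ≠ 0) (hab : (α.gcd β).Coprime n) {K : Type}
    [Field K] [Algebra Ω K] (x y w : K)
    (hK : adjoin Ω {x, y, w} = ⊤) (hw0 : w ≠ 0) (hw : w ^ n ∈ adjoin Ω {x, y})
    (hdeg : Module.finrank (adjoin Ω {x, y}) K = n)
    (huni : ∀ (N : Type) [Field N] [Algebra Ω N] (g : K →ₐ[Ω] N) (v s : N),
      Transcendental g.fieldRange v → v ^ α * (1 - v) ^ β = s ^ n * g w ^ n →
      Uniruled Ω (adjoin Ω {g x, g y, v, s} : IntermediateField Ω N) 3)
    (hexc : ∀ (ζ : Ω) (σ : K →ₐ[Ω] K), IsPrimitiveRoot ζ n → σ x = x → σ y = y →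
      σ w = algebraMap Ω K ζ * w → ∀ (ξ : L) (t : T.H 2 K), ξ ^ n = 1 →
      (ξ ^ α = 1 ∨ ξ ^ β = 1 ∨ ξ ^ (α + β) = 1) → T.map 2 σ t = ξ • t → t = 0)
    (γ : G) (hγ : T.IsTrivialOnAbelian γ) (t : T.H 2 K) : T.act 2 K γ t = t := by
  have hfin : (⊤ : IntermediateField Ω K).FG := by
    rw [← hK]
    exact fg_adjoin_of_finite (Set.toFinite _)
  have hxy : ∀ k : K, k ∈ Acl Ω {x, y} := by
    intro s
    have : FiniteDimensional (adjoin Ω {x, y}) K :=
      Module.finite_of_finrank_pos (by rw [hdeg]; exact hn)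
    exact Algebra.IsAlgebraic.isAlgebraic s
  have hx : x ∈ adjoin Ω {x, y} := subset_adjoin _ _ (by simp)
  have hy : y ∈ adjoin Ω {x, y} := subset_adjoin _ _ (by simp)
  refine main_gen T α β hn hn' hab hfin x y hxy (adjoin Ω {x, y}) w ?_ hw0 hw hdeg ?_ ?_ γ hγ t
  · rw [eq_top_iff, ← hK, adjoin_le_iff]
    rintro s (rfl | rfl | rfl)
    · exact subset_adjoin _ _ (Or.inl hx)
    · exact subset_adjoin _ _ (Or.inl hy)
    · exact subset_adjoin _ _ (Or.inr rfl)
  · intro N _ _ g v s hv hs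
    have h1 : adjoin Ω (g '' (adjoin Ω {x, y} : Set K) ∪ {v, s}) = adjoin Ω {g x, g y, v, s} := by
      apply le_antisymm
      · rw [adjoin_le_iff]
        rintro r (⟨k, hk, rfl⟩ | rfl | rfl)
        · have h2 : adjoin Ω {x, y} ≤ (adjoin Ω {g x, g y, v, s}).comap g := by
            rw [adjoin_le_iff]
            rintro k (rfl | rfl)
            · exact subset_adjoin _ _ (by simp)
            · exact subset_adjoin _ _ (by simp)
          exact h2 hk
        · exact subset_adjoin _ _ (by simp)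
        · exact subset_adjoin _ _ (by simp)
      · rw [adjoin_le_iff]
        rintro r (rfl | rfl | rfl | rfl)
        · exact subset_adjoin _ _ (Or.inl ⟨x, hx, rfl⟩)
        · exact subset_adjoin _ _ (Or.inl ⟨y, hy, rfl⟩)
        · exact subset_adjoin _ _ (by simp)
        · exact subset_adjoin _ _ (by simp)
    rw [h1]
    exact huni N g v s hv hs
  · intro ζ σ hζ h1 h2
    exact hexc ζ σ hζ (h1 x hx) (h1 y hy) h2

theorem main {Ω L G : Type} [Field Ω] [IsAlgClosed Ω] [CharZero Ω] [Field L] [IsAlgClosed L]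
    [CharZero L] [Group G] (T : MotivicTheory Ω L G) (f : MvPolynomial (Fin 2) Ω)
    (hf : f.totalDegree ≤ 4) {n : ℕ} (hn : 0 < n) {K : Type} [Field K] [Algebra Ω K] (x y w : K)
    (hK : adjoin Ω {x, y, w} = ⊤) (hw : w ^ n = MvPolynomial.aeval ![x, y] f)
    (hdeg : Module.finrank (adjoin Ω {x, y}) K = n) (γ : G) (hγ : T.IsTrivialOnAbelian γ)
    (t : T.H 2 K) : T.act 2 K γ t = t := by
  have hn' : (n : Ω) ≠ 0 := by exact_mod_cast hn.ne'
  by_cases hw0 : w = 0
  · have h0 : ∀ t : T.H 2 K, t = 0 := by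
      refine plane_zero T.toBaseTheory x y ?_
      rw [eq_top_iff, ← hK, adjoin_le_iff]
      rintro s (rfl | rfl | rfl)
      · exact subset_adjoin _ _ (by simp)
      · exact subset_adjoin _ _ (by simp)
      · rw [hw0]
        exact zero_mem _
    rw [h0 (T.act 2 K γ t), h0 t]
  · obtain ⟨h1, h2, h3⟩ := quartic_input T.toBaseTheory f hf hn hn' x y w hK hw0 hw
    exact main_xy T 1 1 hn hn' (by simp) x y w hK hw0 h1 hdeg h2 h3 γ hγ t

end Pool.Agent.Helper15.QM
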