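import Pool.Agent.Helper15.QM.Final2

/-! Project QM. The surfaces `w ^ n ∈ Ω(x, y)` for which the threefold `v (1 - v) = s ^ n w ^ n` is
uniruled: the exceptional eigenclasses, with eigenvalues `1` and `-1`, come from `Ω(x, y)` and from
`Ω(x, y, w ^ (n / 2))`. -/

set_option autoImplicit false

namespace Pool.Agent.Helper15.QM

open IntermediateField TensorProduct Pool.Agent.Helper75.QC

/-- Classes with `σ^d t = t`, `n = d m`, come from `M₀(w^m)`. -/
theorem Gen.eigen_desc {Ω L : Type} [Field Ω] [Field L] (T : BaseTheory Ω L) {n d m : ℕ}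
    (hn : 0 < n) (hn' : (n : Ω) ≠ 0) (hdm : n = d * m) {ζ : Ω} (hζ : IsPrimitiveRoot ζ n)
    {K : Type} [Field K] [Algebra Ω K] (M₀ : IntermediateField Ω K) (w : K)
    (hK : adjoin Ω ((M₀ : Set K) ∪ {w}) = ⊤) (hw0 : w ≠ 0)
    (hw : w ^ n ∈ M₀) (σ : K →ₐ[Ω] K)
    (hσ : (∀ k ∈ M₀, σ k = k) ∧ σ w = algebraMap Ω K ζ * w)
    (N0 : IntermediateField Ω K) (hN0 : N0 = adjoin Ω ((M₀ : Set K) ∪ {w ^ m}))
    (t : T.H 2 K) (ht : (T.map 2 σ ^ d) t = t) : ∃ s : T.H 2 N0, T.map 2 N0.val s = t := by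
  have hev : ∀ k : ℕ, (T.map 2 σ ^ (d * k)) t = t := by
    intro k
    induction k with
    | zero => simp
    | succ k ih => rw [Nat.mul_succ, pow_add, Module.End.mul_apply, ht, ih]
  have hM : M₀ ≤ N0 := fun k hk => by
    rw [hN0]
    exact subset_adjoin Ω _ (Or.inl hk)
  have hwm : w ^ m ∈ N0 := by
    rw [hN0]
    exact subset_adjoin Ω _ (Or.inr rfl)
  obtain ⟨g1, g2, g3⟩ := kummer_gal N0 hn hn' hζ w hw0 (hM hw) (by
    intro M h1 h2
    rw [eq_top_iff, ← hK, adjoin_le_iff]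
    rintro s (hs | rfl)
    · exact h1 (hM hs)
    · exact h2)
  have hfix : ∀ τ : K →ₐ[N0] K, T.map 2 (τ.restrictScalars Ω) t = t := by
    intro τ
    obtain ⟨j, hj⟩ := g3 τ
    rw [Gen.tau_eq N0 M₀ w hK hM ζ σ hσ τ j hj, tmap_pow75]
    have h3 : τ (w ^ m) = w ^ m := τ.commutes ⟨_, hwm⟩
    rw [_root_.map_pow, hj, mul_pow, ← pow_mul] at h3
    have h4 : algebraMap Ω K (ζ ^ (j * m)) = 1 := by
      rw [_root_.map_pow]
      exact mul_right_cancel₀ (pow_ne_zero m hw0) (h3.trans (one_mul _).symm)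
    have h5 : ζ ^ (j * m) = 1 := by
      apply (algebraMap Ω K).injective
      rw [h4, _root_.map_one]
    have h6 := hζ.dvd_of_pow_eq_one _ h5
    rw [hdm] at h6
    have hm0 : 0 < m := by
      rcases Nat.eq_zero_or_pos m with h | h
      · rw [hdm, h, mul_zero] at hn
        exact absurd hn (lt_irrefl 0)
      · exact h
    have h7 : d ∣ j := Nat.dvd_of_mul_dvd_mul_right hm0 h6
    obtain ⟨k, rfl⟩ := h7
    exact hev k
  obtain ⟨s, hs⟩ := T.descent 2 K N0 t hfix
  exact ⟨s, hs⟩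

/-- The eigenclasses with `ξ ^ 2 = 1` come from `Ω(x, y, w ^ (n / 2))`, and are zero if `n` is
odd. -/
theorem desc_two {Ω L : Type} [Field Ω] [Field L] (T : BaseTheory Ω L) {n : ℕ}
    (hn : 0 < n) (hn' : (n : Ω) ≠ 0) {ζ : Ω} (hζ : IsPrimitiveRoot ζ n)
    {K : Type} [Field K] [Algebra Ω K] (x y w : K)
    (hK : adjoin Ω {x, y, w} = ⊤) (hw0 : w ≠ 0) (hw : w ^ n ∈ adjoin Ω {x, y}) (σ : K →ₐ[Ω] K)
    (hσ : (∀ k ∈ adjoin Ω {x, y}, σ k = k) ∧ σ w = algebraMap Ω K ζ * w)
    (ξ : L) (hξn : ξ ^ n = 1) (hξ2 : ξ ^ 2 = 1) (t : T.H 2 K) (ht : T.map 2 σ t = ξ • t) :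
    t = 0 ∨ ∃ (m : ℕ), n = 2 * m ∧ ∃ s : T.H 2 (adjoin Ω {x, y, w ^ m} : IntermediateField Ω K),
      T.map 2 (adjoin Ω {x, y, w ^ m} : IntermediateField Ω K).val s = t := by
  have hpow : ∀ j : ℕ, (T.map 2 σ ^ j) t = ξ ^ j • t := by
    intro j
    induction j with
    | zero => simp
    | succ j ih => rw [pow_succ, Module.End.mul_apply, ht, map_smul, ih, smul_smul, pow_succ, mul_comm]
  have hx : x ∈ adjoin Ω {x, y} := subset_adjoin _ _ (by simp)
  have hy : y ∈ adjoin Ω {x, y} := subset_adjoin _ _ (by simp)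
  have hgen : ∀ r : K, adjoin Ω {x, y, r} = adjoin Ω ((adjoin Ω {x, y} : Set K) ∪ {r}) := by
    intro r
    apply le_antisymm
    · rw [adjoin_le_iff]
      rintro s (rfl | rfl | rfl)
      · exact subset_adjoin _ _ (Or.inl hx)
      · exact subset_adjoin _ _ (Or.inl hy)
      · exact subset_adjoin _ _ (Or.inr rfl)
    · rw [adjoin_le_iff]
      rintro s (hs | rfl)
      · have h1 : adjoin Ω {x, y} ≤ adjoin Ω {x, y, r} := by
          rw [adjoin_le_iff]
          rintro k (rfl | rfl)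
          · exact subset_adjoin _ _ (by simp)
          · exact subset_adjoin _ _ (by simp)
        exact h1 hs
      · exact subset_adjoin _ _ (by simp)
  have hK' : adjoin Ω ((adjoin Ω {x, y} : Set K) ∪ {w}) = ⊤ := by rw [← hgen w, hK]
  rcases Nat.even_or_odd' n with ⟨m, hm | hm⟩
  · right
    refine ⟨m, hm, ?_⟩
    refine Gen.eigen_desc T hn hn' hm hζ (adjoin Ω {x, y}) w hK' hw0 hw σ hσ _ (hgen _) t ?_
    rw [hpow, hξ2, one_smul]
  · left
    have hξ1 : ξ = 1 := by
      have h1 : ξ ^ n = ξ := by rw [hm, pow_succ, pow_mul, hξ2, one_pow, one_mul]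
      rw [← h1, hξn]
    obtain ⟨s, hs⟩ := Gen.eigen_desc T hn hn' (one_mul n).symm hζ (adjoin Ω {x, y}) w hK' hw0 hw σ
      hσ (adjoin Ω {x, y}) (by
        apply le_antisymm
        · exact fun k hk => subset_adjoin Ω _ (Or.inl hk)
        · rw [adjoin_le_iff]
          rintro s (hs | rfl)
          · exact hs
          · exact hw) t (by rw [hpow, hξ1, one_pow, one_smul])
    rw [← hs]
    have h0 : s = 0 := by
      refine plane_zero T (⟨x, hx⟩ : adjoin Ω {x, y}) ⟨y, hy⟩ ?_ s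
      apply IntermediateField.map_injective (adjoin Ω {x, y}).val
      rw [adjoin_map]
      have e1 : (adjoin Ω {x, y}).val '' ({⟨x, hx⟩, ⟨y, hy⟩} : Set (adjoin Ω {x, y})) = {x, y} := by
        rw [Set.image_pair]
        rfl
      rw [e1]
      ext k
      simp
    rw [h0, map_zero]

/-- **The criterion**: the threefold `v (1 - v) = s ^ n w ^ n` is uniruled. The only other input is
the double plane `z ^ 2 = w ^ n`. -/
theorem main_double {Ω L G : Type} [Field Ω] [IsAlgClosed Ω] [Field L] [IsAlgClosed L]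
    [CharZero L] [Group G] (T : MotivicTheory Ω L G) {n : ℕ}
    (hn : 0 < n) (hn' : (n : Ω) ≠ 0) {K : Type}
    [Field K] [Algebra Ω K] (x y w : K)
    (hK : adjoin Ω {x, y, w} = ⊤) (hw0 : w ≠ 0) (hw : w ^ n ∈ adjoin Ω {x, y})
    (hdeg : Module.finrank (adjoin Ω {x, y}) K = n)
    (huni : ∀ (N : Type) [Field N] [Algebra Ω N] (g : K →ₐ[Ω] N) (v s : N),
      Transcendental g.fieldRange v → v ^ 1 * (1 - v) ^ 1 = s ^ n * g w ^ n →
      Uniruled Ω (adjoin Ω {g x, g y, v, s} : IntermediateField Ω N) 3)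
    (γ : G) (hγ : T.IsTrivialOnAbelian γ)
    (hD : ∀ m : ℕ, n = 2 * m → ∀ s : T.H 2 (adjoin Ω {x, y, w ^ m} : IntermediateField Ω K),
      T.act 2 (adjoin Ω {x, y, w ^ m} : IntermediateField Ω K) γ s = s)
    (t : T.H 2 K) : T.act 2 K γ t = t := by
  classical
  have hfin : (⊤ : IntermediateField Ω K).FG := by
    rw [← hK]
    exact fg_adjoin_of_finite (Set.toFinite _)
  have hxy : ∀ k : K, k ∈ Acl Ω {x, y} := by
    intro s
    have : FiniteDimensional (adjoin Ω {x, y}) K :=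
      Module.finite_of_finrank_pos (by rw [hdeg]; exact hn)
    exact Algebra.IsAlgebraic.isAlgebraic s
  have hx : x ∈ adjoin Ω {x, y} := subset_adjoin _ _ (by simp)
  have hy : y ∈ adjoin Ω {x, y} := subset_adjoin _ _ (by simp)
  have hK' : adjoin Ω ((adjoin Ω {x, y} : Set K) ∪ {w}) = ⊤ := by
    rw [eq_top_iff, ← hK, adjoin_le_iff]
    rintro s (rfl | rfl | rfl)
    · exact subset_adjoin _ _ (Or.inl hx)
    · exact subset_adjoin _ _ (Or.inl hy)
    · exact subset_adjoin _ _ (Or.inr rfl)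
  have : NeZero (n : Ω) := ⟨hn'⟩
  obtain ⟨ζ, hζ⟩ : ∃ ζ : Ω, IsPrimitiveRoot ζ n :=
    HasEnoughRootsOfUnity.exists_primitiveRoot Ω n
  obtain ⟨σ, hσ⟩ := Gen.kummer_sigma hn hn' hζ.pow_eq_one (adjoin Ω {x, y}) w hK' hw hdeg
  have hσn : σ ^ n = 1 := sigma_order hζ.pow_eq_one (adjoin Ω {x, y}) w hK' σ hσ
  have huni' : ∀ (N : Type) [Field N] [Algebra Ω N] (g : K →ₐ[Ω] N) (v s : N),
      Transcendental g.fieldRange v → v ^ 1 * (1 - v) ^ 1 = s ^ n * g w ^ n →
      Uniruled Ω (adjoin Ω (g '' (adjoin Ω {x, y} : Set K) ∪ {v, s}) :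
        IntermediateField Ω N) 3 := by
    intro N _ _ g v s hv hs
    have h1 : adjoin Ω (g '' (adjoin Ω {x, y} : Set K) ∪ {v, s}) = adjoin Ω {g x, g y, v, s} := by
      apply le_antisymm
      · rw [adjoin_le_iff]
        rintro r (⟨k, hk, rfl⟩ | rfl | rfl)
        · have h2 : adjoin Ω {x, y} ≤ (adjoin Ω {g x, g y, v, s}).comap g := by
            rw [adjoin_le_iff]
            rintro k (rfl | rfl)
            · exact subset_adjoin _ _ (by simp)
            · exact subset_adjoin _ _ (by simp)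
          exact h2 hk
        · exact subset_adjoin _ _ (by simp)
        · exact subset_adjoin _ _ (by simp)
      · rw [adjoin_le_iff]
        rintro r (rfl | rfl | rfl | rfl)
        · exact subset_adjoin _ _ (Or.inl ⟨x, hx, rfl⟩)
        · exact subset_adjoin _ _ (Or.inl ⟨y, hy, rfl⟩)
        · exact subset_adjoin _ _ (by simp)
        · exact subset_adjoin _ _ (by simp)
    rw [h1]
    exact huni N g v s hv hs
  -- the eigenclasses
  have heig : ∀ (ξ : L) (t : T.H 2 K), T.map 2 σ t = ξ • t → T.act 2 K γ t = t := by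
    intro ξ t ht
    by_cases ht0 : t = 0
    · rw [ht0, map_zero]
    have hpow : ∀ j : ℕ, (T.map 2 σ ^ j) t = ξ ^ j • t := by
      intro j
      induction j with
      | zero => simp
      | succ j ih =>
        rw [pow_succ, Module.End.mul_apply, ht, map_smul, ih, smul_smul, pow_succ, mul_comm]
    have hξn : ξ ^ n = 1 := by
      have h1 := hpow n
      rw [← tmap_pow75, hσn] at h1
      have h2 : T.map 2 (1 : K →ₐ[Ω] K) t = t := by
        show T.map 2 (AlgHom.id Ω K) t = t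
        rw [T.map_id]
        rfl
      rw [h2] at h1
      have h3 : (ξ ^ n - 1) • t = 0 := by
        rw [sub_smul, ← h1, one_smul, sub_self]
      exact sub_eq_zero.1 ((smul_eq_zero.1 h3).resolve_right ht0)
    by_cases hξ2 : ξ ^ 2 = 1
    · rcases desc_two T.toBaseTheory hn hn' hζ x y w hK hw0 hw σ hσ ξ hξn hξ2 t ht with
        h | ⟨m, hm, s, hs⟩
      · exact absurd h ht0
      · rw [← hs, ← T.map_act, hD m hm s]
    have hξ1 : ξ ^ 1 ≠ 1 := by
      intro h
      rw [pow_one] at h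
      exact hξ2 (by rw [h, one_pow])
    obtain ⟨C, N, iC, jC, iN, jN, v, a, b, z, hC, hv, hbv, -, hz, h6⟩ :=
      exists_cross T.toBaseTheory 1 1 hn hn' (by simp) (adjoin Ω {x, y}) w hK' hw0 hw huni' hζ σ hσ
        ξ hξn hξ1 hξ1 hξ2
    have h0 := h6 t ht
    obtain ⟨D, iD, jD, g, hDf, heq, hker⟩ := T.gysin a b x y v hfin hC hxy hv hbv
    obtain ⟨s, hs⟩ := (hker (t ⊗ₜ z)).1 (by
      rw [TensorProduct.lift.tmul]
      exact h0)
    have h1 := heq γ s
    rw [hγ.2 D hDf s, hγ.1, inv_one, one_smul, hs, TensorProduct.map_tmul, hγ.2 C hC z] at h1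
    obtain ⟨ξ', hξ'⟩ : ∃ ξ' : Module.Dual L (T.H 1 C), ξ' z ≠ 0 := by
      by_contra hcon
      push Not at hcon
      exact hz ((Module.forall_dual_apply_eq_zero_iff L z).1 hcon)
    have h2 := congrArg (fun r => TensorProduct.rid L (T.H 2 K) (ξ'.lTensor (T.H 2 K) r)) h1
    simp only [LinearMap.lTensor_tmul, TensorProduct.rid_tmul] at h2
    exact smul_right_injective _ hξ' h2
  -- the eigenclasses generate
  have hAn : (T.map 2 σ : Module.End L (T.H 2 K)) ^ n = 1 := by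
    rw [← tmap_pow75, hσn]
    exact T.map_id 2 K
  have hfd : FiniteDimensional L (T.H 2 K) := T.fin 2 K hfin
  have hss : Module.End.IsSemisimple (T.map 2 σ : Module.End L (T.H 2 K)) := by
    have hnL : (n : L) ≠ 0 := by exact_mod_cast hn.ne'
    refine Module.End.isSemisimple_of_squarefree_aeval_eq_zero
      (p := Polynomial.X ^ n - Polynomial.C 1)
      (Polynomial.separable_X_pow_sub_C (1 : L) hnL one_ne_zero).squarefree ?_
    simp [hAn]
  have htop := hss.iSup_eigenspace_eq_top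
  have hle : (⨆ ξ, Module.End.eigenspace (T.map 2 σ : Module.End L (T.H 2 K)) ξ) ≤
      LinearMap.eqLocus (T.act 2 K γ) LinearMap.id := by
    refine iSup_le fun ξ t ht => ?_
    exact heig ξ t (Module.End.mem_eigenspace_iff.1 ht)
  rw [htop] at hle
  exact hle (Submodule.mem_top (x := t))

end Pool.Agent.Helper15.QM
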