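import Pool.Agent.Helper15.QM.Final3

/-! Project QM. The surfaces `w ^ 6 = f`, `deg f ≤ 6 (a + b)`, if the quotients `w ^ 3 = f` and
`w ^ 2 = f` are known. The threefold `v ^ 2 (1 - v) ^ 3 = s ^ 6 f` is `r ^ 2 = f - p ^ 3`. -/

set_option autoImplicit false

namespace Pool.Agent.Helper15.QM

open IntermediateField TensorProduct Pool.Agent.Helper75.QC Pool.Agent.Helper75.TC
  Pool.Agent.Helper40.SD

/-- **The criterion** with a general curve: `γ` has to be trivial on the exceptional eigenclasses. -/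
theorem main_exc {Ω L G : Type} [Field Ω] [IsAlgClosed Ω] [Field L] [IsAlgClosed L]
    [CharZero L] [Group G] (T : MotivicTheory Ω L G) (α β : ℕ) {n : ℕ}
    (hn : 0 < n) (hn' : (n : Ω) ≠ 0) (hab : (α.gcd β).Coprime n) {K : Type}
    [Field K] [Algebra Ω K] (x y w : K)
    (hK : adjoin Ω {x, y, w} = ⊤) (hw0 : w ≠ 0) (hw : w ^ n ∈ adjoin Ω {x, y})
    (hdeg : Module.finrank (adjoin Ω {x, y}) K = n)
    (huni : ∀ (N : Type) [Field N] [Algebra Ω N] (g : K →ₐ[Ω] N) (v s : N),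
      Transcendental g.fieldRange v → v ^ α * (1 - v) ^ β = s ^ n * g w ^ n →
      Uniruled Ω (adjoin Ω {g x, g y, v, s} : IntermediateField Ω N) 3)
    (γ : G) (hγ : T.IsTrivialOnAbelian γ)
    (hexc : ∀ (ζ : Ω) (σ : K →ₐ[Ω] K), IsPrimitiveRoot ζ n → (∀ k ∈ adjoin Ω {x, y}, σ k = k) →
      σ w = algebraMap Ω K ζ * w → ∀ (ξ : L) (t : T.H 2 K), ξ ^ n = 1 →
      (ξ ^ α = 1 ∨ ξ ^ β = 1 ∨ ξ ^ (α + β) = 1) → T.map 2 σ t = ξ • t → T.act 2 K γ t = t)
    (t : T.H 2 K) : T.act 2 K γ t = t := by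
  classical
  have hfin : (⊤ : IntermediateField Ω K).FG := by
    rw [← hK]
    exact fg_adjoin_of_finite (Set.toFinite _)
  have hxy : ∀ k : K, k ∈ Acl Ω {x, y} := by
    intro s
    have : FiniteDimensional (adjoin Ω {x, y}) K :=
      Module.finite_of_finrank_pos (by rw [hdeg]; exact hn)
    exact Algebra.IsAlgebraic.isAlgebraic s
  have hx : x ∈ adjoin Ω {x, y} := subset_adjoin _ _ (by simp)
  have hy : y ∈ adjoin Ω {x, y} := subset_adjoin _ _ (by simp)
  have hK' : adjoin Ω ((adjoin Ω {x, y} : Set K) ∪ {w}) = ⊤ := by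
    rw [eq_top_iff, ← hK, adjoin_le_iff]
    rintro s (rfl | rfl | rfl)
    · exact subset_adjoin _ _ (Or.inl hx)
    · exact subset_adjoin _ _ (Or.inl hy)
    · exact subset_adjoin _ _ (Or.inr rfl)
  have : NeZero (n : Ω) := ⟨hn'⟩
  obtain ⟨ζ, hζ⟩ : ∃ ζ : Ω, IsPrimitiveRoot ζ n :=
    HasEnoughRootsOfUnity.exists_primitiveRoot Ω n
  obtain ⟨σ, hσ⟩ := Gen.kummer_sigma hn hn' hζ.pow_eq_one (adjoin Ω {x, y}) w hK' hw hdeg
  have hσn : σ ^ n = 1 := sigma_order hζ.pow_eq_one (adjoin Ω {x, y}) w hK' σ hσ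
  have huni' : ∀ (N : Type) [Field N] [Algebra Ω N] (g : K →ₐ[Ω] N) (v s : N),
      Transcendental g.fieldRange v → v ^ α * (1 - v) ^ β = s ^ n * g w ^ n →
      Uniruled Ω (adjoin Ω (g '' (adjoin Ω {x, y} : Set K) ∪ {v, s}) :
        IntermediateField Ω N) 3 := by
    intro N _ _ g v s hv hs
    have h1 : adjoin Ω (g '' (adjoin Ω {x, y} : Set K) ∪ {v, s}) = adjoin Ω {g x, g y, v, s} := by
      apply le_antisymm
      · rw [adjoin_le_iff]
        rintro r (⟨k, hk, rfl⟩ | rfl | rfl)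
        · have h2 : adjoin Ω {x, y} ≤ (adjoin Ω {g x, g y, v, s}).comap g := by
            rw [adjoin_le_iff]
            rintro k (rfl | rfl)
            · exact subset_adjoin _ _ (by simp)
            · exact subset_adjoin _ _ (by simp)
          exact h2 hk
        · exact subset_adjoin _ _ (by simp)
        · exact subset_adjoin _ _ (by simp)
      · rw [adjoin_le_iff]
        rintro r (rfl | rfl | rfl | rfl)
        · exact subset_adjoin _ _ (Or.inl ⟨x, hx, rfl⟩)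
        · exact subset_adjoin _ _ (Or.inl ⟨y, hy, rfl⟩)
        · exact subset_adjoin _ _ (by simp)
        · exact subset_adjoin _ _ (by simp)
    rw [h1]
    exact huni N g v s hv hs
  -- the eigenclasses
  have heig : ∀ (ξ : L) (t : T.H 2 K), T.map 2 σ t = ξ • t → T.act 2 K γ t = t := by
    intro ξ t ht
    by_cases ht0 : t = 0
    · rw [ht0, map_zero]
    have hpow : ∀ j : ℕ, (T.map 2 σ ^ j) t = ξ ^ j • t := by
      intro j
      induction j with
      | zero => simp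
      | succ j ih =>
        rw [pow_succ, Module.End.mul_apply, ht, map_smul, ih, smul_smul, pow_succ, mul_comm]
    have hξn : ξ ^ n = 1 := by
      have h1 := hpow n
      rw [← tmap_pow75, hσn] at h1
      have h2 : T.map 2 (1 : K →ₐ[Ω] K) t = t := by
        show T.map 2 (AlgHom.id Ω K) t = t
        rw [T.map_id]
        rfl
      rw [h2] at h1
      have h3 : (ξ ^ n - 1) • t = 0 := by
        rw [sub_smul, ← h1, one_smul, sub_self]
      exact sub_eq_zero.1 ((smul_eq_zero.1 h3).resolve_right ht0)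
    by_cases hξ2 : ξ ^ α = 1 ∨ ξ ^ β = 1 ∨ ξ ^ (α + β) = 1
    · exact hexc ζ σ hζ hσ.1 hσ.2 ξ t hξn hξ2 ht
    push Not at hξ2
    obtain ⟨C, N, iC, jC, iN, jN, v, a, b, z, hC, hv, hbv, -, hz, h6⟩ :=
      exists_cross T.toBaseTheory α β hn hn' hab (adjoin Ω {x, y}) w hK' hw0 hw huni' hζ σ hσ
        ξ hξn hξ2.1 hξ2.2.1 hξ2.2.2
    have h0 := h6 t ht
    obtain ⟨D, iD, jD, g, hDf, heq, hker⟩ := T.gysin a b x y v hfin hC hxy hv hbv
    obtain ⟨s, hs⟩ := (hker (t ⊗ₜ z)).1 (by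
      rw [TensorProduct.lift.tmul]
      exact h0)
    have h1 := heq γ s
    rw [hγ.2 D hDf s, hγ.1, inv_one, one_smul, hs, TensorProduct.map_tmul, hγ.2 C hC z] at h1
    obtain ⟨ξ', hξ'⟩ : ∃ ξ' : Module.Dual L (T.H 1 C), ξ' z ≠ 0 := by
      by_contra hcon
      push Not at hcon
      exact hz ((Module.forall_dual_apply_eq_zero_iff L z).1 hcon)
    have h2 := congrArg (fun r => TensorProduct.rid L (T.H 2 K) (ξ'.lTensor (T.H 2 K) r)) h1
    simp only [LinearMap.lTensor_tmul, TensorProduct.rid_tmul] at h2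
    exact smul_right_injective _ hξ' h2
  -- the eigenclasses generate
  have hAn : (T.map 2 σ : Module.End L (T.H 2 K)) ^ n = 1 := by
    rw [← tmap_pow75, hσn]
    exact T.map_id 2 K
  have hfd : FiniteDimensional L (T.H 2 K) := T.fin 2 K hfin
  have hss : Module.End.IsSemisimple (T.map 2 σ : Module.End L (T.H 2 K)) := by
    have hnL : (n : L) ≠ 0 := by exact_mod_cast hn.ne'
    refine Module.End.isSemisimple_of_squarefree_aeval_eq_zero
      (p := Polynomial.X ^ n - Polynomial.C 1)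
      (Polynomial.separable_X_pow_sub_C (1 : L) hnL one_ne_zero).squarefree ?_
    simp [hAn]
  have htop := hss.iSup_eigenspace_eq_top
  have hle : (⨆ ξ, Module.End.eigenspace (T.map 2 σ : Module.End L (T.H 2 K)) ξ) ≤
      LinearMap.eqLocus (T.act 2 K γ) LinearMap.id := by
    refine iSup_le fun ξ t ht => ?_
    exact heig ξ t (Module.End.mem_eigenspace_iff.1 ht)
  rw [htop] at hle
  exact hle (Submodule.mem_top (x := t))

/-- The classes with `σ ^ d t = t`, `n = d m`, come from `Ω(x, y, w ^ m)`. -/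
theorem desc_xy {Ω L : Type} [Field Ω] [Field L] (T : BaseTheory Ω L) {n d m : ℕ}
    (hn : 0 < n) (hn' : (n : Ω) ≠ 0) (hdm : n = d * m) {ζ : Ω} (hζ : IsPrimitiveRoot ζ n)
    {K : Type} [Field K] [Algebra Ω K] (x y w : K)
    (hK : adjoin Ω {x, y, w} = ⊤) (hw0 : w ≠ 0) (hw : w ^ n ∈ adjoin Ω {x, y}) (σ : K →ₐ[Ω] K)
    (hσ : (∀ k ∈ adjoin Ω {x, y}, σ k = k) ∧ σ w = algebraMap Ω K ζ * w)
    (ξ : L) (hξ : ξ ^ d = 1) (t : T.H 2 K) (ht : T.map 2 σ t = ξ • t) :
    ∃ s : T.H 2 (adjoin Ω {x, y, w ^ m} : IntermediateField Ω K),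
      T.map 2 (adjoin Ω {x, y, w ^ m} : IntermediateField Ω K).val s = t := by
  have hpow : ∀ j : ℕ, (T.map 2 σ ^ j) t = ξ ^ j • t := by
    intro j
    induction j with
    | zero => simp
    | succ j ih => rw [pow_succ, Module.End.mul_apply, ht, map_smul, ih, smul_smul, pow_succ, mul_comm]
  have hx : x ∈ adjoin Ω {x, y} := subset_adjoin _ _ (by simp)
  have hy : y ∈ adjoin Ω {x, y} := subset_adjoin _ _ (by simp)
  have hgen : ∀ r : K, adjoin Ω {x, y, r} = adjoin Ω ((adjoin Ω {x, y} : Set K) ∪ {r}) := by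
    intro r
    apply le_antisymm
    · rw [adjoin_le_iff]
      rintro s (rfl | rfl | rfl)
      · exact subset_adjoin _ _ (Or.inl hx)
      · exact subset_adjoin _ _ (Or.inl hy)
      · exact subset_adjoin _ _ (Or.inr rfl)
    · rw [adjoin_le_iff]
      rintro s (hs | rfl)
      · have h1 : adjoin Ω {x, y} ≤ adjoin Ω {x, y, r} := by
          rw [adjoin_le_iff]
          rintro k (rfl | rfl)
          · exact subset_adjoin _ _ (by simp)
          · exact subset_adjoin _ _ (by simp)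
        exact h1 hs
      · exact subset_adjoin _ _ (by simp)
  have hK' : adjoin Ω ((adjoin Ω {x, y} : Set K) ∪ {w}) = ⊤ := by rw [← hgen w, hK]
  refine Gen.eigen_desc T hn hn' hdm hζ (adjoin Ω {x, y}) w hK' hw0 hw σ hσ _ (hgen _) t ?_
  rw [hpow, hξ, one_smul]

private theorem mem_val15s {Ω N : Type} [Field Ω] [Field N] [Algebra Ω N]
    (f : MvPolynomial (Fin 2) Ω) (x y : N) (F : IntermediateField Ω N)
    (hx : x ∈ F) (hy : y ∈ F) : MvPolynomial.aeval ![x, y] f ∈ F := by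
  have h := map_aeval75 F.val (⟨x, hx⟩ : F) ⟨y, hy⟩ f
  change ((MvPolynomial.aeval ![(⟨x, hx⟩ : F), ⟨y, hy⟩] f : F) : N) = _ at h
  rw [show MvPolynomial.aeval ![x, y] f = ((MvPolynomial.aeval ![(⟨x, hx⟩ : F), ⟨y, hy⟩] f : F) : N)
    from h.symm]
  exact Subtype.property _

/-- `n = 6`, `deg f ≤ 6 (a + b)` -/
theorem wsolid_six {Ω N : Type} [Field Ω] [IsAlgClosed Ω] [Field N] [Algebra Ω N]
    (h2 : (2 : Ω) ≠ 0) (f : MvPolynomial (Fin 2) Ω) (a b : ℕ) (hpos : 0 < a + b)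
    (hf : ∀ m ∈ f.support, a * m 0 + b * m 1 ≤ 6 * (a + b))
    (x y v s : N) (hf0 : MvPolynomial.aeval ![x, y] f ≠ 0) (hv0 : v ≠ 0) (hv1 : 1 - v ≠ 0)
    (hs : v ^ 2 * (1 - v) ^ 3 = s ^ 6 * MvPolynomial.aeval ![x, y] f) :
    Uniruled Ω (adjoin Ω {x, y, v, s} : IntermediateField Ω N) 3 := by
  set c := MvPolynomial.aeval ![x, y] f with hc
  have hs0 : s ≠ 0 := by
    rintro rfl
    rw [zero_pow (by norm_num), zero_mul] at hs
    exact mul_ne_zero (pow_ne_zero _ hv0) (pow_ne_zero _ hv1) hs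
  have key : (v * c) ^ 2 * ((1 - v) * c) ^ 3 = (s * c) ^ 6 := by
    linear_combination c ^ 5 * hs
  set p : N := (v * c) * ((1 - v) * c) / (s * c) ^ 2 with hp
  have hu : s * c ≠ 0 := mul_ne_zero hs0 hf0
  have hP : v * c ≠ 0 := mul_ne_zero hv0 hf0
  have hR : (1 - v) * c ≠ 0 := mul_ne_zero hv1 hf0
  have hp0 : p ≠ 0 := div_ne_zero (mul_ne_zero hP hR) (pow_ne_zero _ hu)
  have e1 : p ^ 3 = v * c := by
    rw [hp, div_pow, div_eq_iff (pow_ne_zero _ (pow_ne_zero _ hu))]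
    linear_combination (v * c) * key
  set r : N := s * c / p with hr
  have e2 : r ^ 2 = (1 - v) * c := by
    rw [hr, div_pow, div_eq_iff (pow_ne_zero _ hp0)]
    have h1 : ((1 - v) * c) * p ^ 2 * (s * c) ^ 4 = (s * c) ^ 2 * (s * c) ^ 4 := by
      rw [hp]
      field_simp
      linear_combination hs
    exact (mul_right_cancel₀ (pow_ne_zero 4 hu) h1).symm
  have hW : ∑ i, (![a, b, 2 * (a + b)] : Fin 3 → ℕ) i = a + b + 2 * (a + b) := by
    rw [Fin.sum_univ_three]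
    rfl
  refine uni_in_wsolid h2 ![a, b, 2 * (a + b)] (by rw [hW]; omega)
    (up f - MvPolynomial.X 2 ^ 3) ?_ x y p r ?_ _ ?_
  · rw [hW]
    refine WD.sub ?_ ?_
    · exact (WD.up hf).mono (by omega)
    · have hX : WD ![a, b, 2 * (a + b)] (2 * (a + b)) (MvPolynomial.X 2 : MvPolynomial (Fin 3) Ω) :=
        WD.X 2
      exact (hX.pow 3).mono (by omega)
  · rw [map_sub, map_pow, aeval_up, MvPolynomial.aeval_X]
    change r ^ 2 = c - p ^ 3
    rw [e1, e2]
    ring
  · have mx : x ∈ adjoin Ω {x, y, p, r} := subset_adjoin _ _ (by simp)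
    have my : y ∈ adjoin Ω {x, y, p, r} := subset_adjoin _ _ (by simp)
    have mp : p ∈ adjoin Ω {x, y, p, r} := subset_adjoin _ _ (by simp)
    have mr : r ∈ adjoin Ω {x, y, p, r} := subset_adjoin _ _ (by simp)
    have mc : c ∈ adjoin Ω {x, y, p, r} := mem_val15s f x y _ mx my
    rintro z (rfl | rfl | rfl | rfl)
    · exact mx
    · exact my
    · have : z = p ^ 3 / c := by rw [e1, mul_div_cancel_right₀ _ hf0]
      rw [this]
      exact div_mem (pow_mem mp 3) mc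
    · have : z = r * p / c := by
        rw [hr, div_mul_cancel₀ _ hp0, mul_div_cancel_right₀ _ hf0]
      rw [this]
      exact div_mem (mul_mem mr mp) mc

/-- **The surfaces `w ^ 6 = f`**, given `w ^ 3 = f` and `w ^ 2 = f`. -/
theorem final_six {Ω L G : Type} [Field Ω] [IsAlgClosed Ω] [CharZero Ω] [Field L]
    [IsAlgClosed L] [CharZero L] [Group G] (T : MotivicTheory Ω L G)
    (f : MvPolynomial (Fin 2) Ω) (a b : ℕ) (hpos : 0 < a + b)
    (hf : ∀ m ∈ f.support, a * m 0 + b * m 1 ≤ 6 * (a + b))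
    {K : Type} [Field K] [Algebra Ω K] (x y w : K) (hK : adjoin Ω {x, y, w} = ⊤)
    (hdeg : Module.finrank (adjoin Ω {x, y}) K = 6)
    (hw : w ^ 6 = MvPolynomial.aeval ![x, y] f)
    (γ : G) (hγ : T.IsTrivialOnAbelian γ)
    (hD : ∀ i : ℕ, i = 2 ∨ i = 3 →
      ∀ s : T.H 2 (adjoin Ω {x, y, w ^ i} : IntermediateField Ω K),
        T.act 2 (adjoin Ω {x, y, w ^ i} : IntermediateField Ω K) γ s = s)
    (t : T.H 2 K) : T.act 2 K γ t = t := by
  have hn' : ((6 : ℕ) : Ω) ≠ 0 := by exact_mod_cast (by norm_num : (6 : ℕ) ≠ 0)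
  have h2 : (2 : Ω) ≠ 0 := two_ne_zero
  have hwF : w ^ 6 ∈ adjoin Ω {x, y} := by
    rw [hw]
    exact aeval_mem75 x y f
  by_cases hw0 : w = 0
  · have h0 : ∀ t : T.H 2 K, t = 0 := by
      refine plane_zero T.toBaseTheory x y ?_
      rw [eq_top_iff, ← hK, adjoin_le_iff]
      rintro s (rfl | rfl | rfl)
      · exact subset_adjoin _ _ (by simp)
      · exact subset_adjoin _ _ (by simp)
      · rw [hw0]
        exact zero_mem _
    rw [h0 (T.act 2 K γ t), h0 t]
  refine main_exc T 2 3 (n := 6) (by norm_num) hn' (by norm_num) x y w hK hw0 hwF hdeg ?_ γ hγ ?_ t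
  · intro N _ _ g v s hv hs
    obtain ⟨hv0, hv1⟩ := sub_ne_of_not_mem _ v (not_mem_of_trans g x y v hv)
    have hg : MvPolynomial.aeval ![g x, g y] f = g w ^ 6 := by
      rw [← map_aeval75, ← hw, map_pow]
    refine wsolid_six h2 f a b hpos hf (g x) (g y) v s ?_ hv0 hv1 ?_
    · rw [hg]
      exact pow_ne_zero _ ((map_ne_zero g).2 hw0)
    · rw [hg]
      exact hs
  · intro ζ σ hζ h1 h3 ξ t hξn hξ ht
    have key : ∀ d m : ℕ, 6 = d * m → (m = 2 ∨ m = 3) → ξ ^ d = 1 → T.act 2 K γ t = t := by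
      intro d m hdm hm hd
      obtain ⟨s, hs⟩ := desc_xy T.toBaseTheory (by norm_num) hn' hdm hζ x y w hK hw0 hwF σ
        ⟨h1, h3⟩ ξ hd t ht
      rw [← hs, ← T.map_act, hD m hm s]
    rcases hξ with h | h | h
    · exact key 2 3 (by norm_num) (Or.inr rfl) h
    · exact key 3 2 (by norm_num) (Or.inl rfl) h
    · have h5 : ξ = 1 := by
        have h6 : ξ ^ 6 = ξ ^ (2 + 3) * ξ := by rw [← pow_succ]
        rw [hξn, h, one_mul] at h6
        exact h6.symm
      exact key 2 3 (by norm_num) (Or.inr rfl) (by rw [h5, one_pow])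

end Pool.Agent.Helper15.QM
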