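import Pool.Agent.Helper40.SD.Inp

/-! Project QM. The threefolds `v ^ α (1 - v) ^ β = s ^ n f(x, y)` which are double solids
`r ^ 2 = B(x, y, p)`, `deg B ≤ 6`:

* `n = 4`, `(α, β) = (1, 1)`, `deg f ≤ 6`: `r ^ 2 = p ^ 4 - 4 f`;
* `n = 6`, `(α, β) = (2, 3)`, `deg f ≤ 6`: `r ^ 2 = f - p ^ 3`;
* `n = 8`, `(α, β) = (3, 4)`, `deg f ≤ 5`: `r ^ 2 = p (f - p ^ 4)`;
* `n = 10`, `(α, β) = (5, 4)`, `deg f ≤ 5`: `r ^ 2 = f - p ^ 5`. -/

set_option autoImplicit false

namespace Pool.Agent.Helper15.QM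

open IntermediateField Pool.Agent.Helper75.QC Pool.Agent.Helper75.TC Pool.Agent.Helper40.SD

/-- a field which is generated by elements of the function field of a double solid -/
theorem uni_in_solid {Ω N : Type} [Field Ω] [IsAlgClosed Ω] (h2 : (2 : Ω) ≠ 0) [Field N]
    [Algebra Ω N] (B : MvPolynomial (Fin 3) Ω) (hB : B.totalDegree ≤ 6) (x y p r : N)
    (hr : r ^ 2 = MvPolynomial.aeval ![x, y, p] B) (S : Set N)
    (hS : ∀ a ∈ S, a ∈ adjoin Ω {x, y, p, r}) :
    Uniruled Ω (adjoin Ω S : IntermediateField Ω N) 3 := by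
  refine uniruled_adjoin (AlgHom.id Ω N) S {x, y, p, r} hS ?_
  set K := (adjoin Ω {x, y, p, r} : IntermediateField Ω N) with hK
  have mx : x ∈ K := subset_adjoin _ _ (by simp)
  have my : y ∈ K := subset_adjoin _ _ (by simp)
  have mp : p ∈ K := subset_adjoin _ _ (by simp)
  have mr : r ∈ K := subset_adjoin _ _ (by simp)
  refine uni_solid h2 B hB ![(⟨x, mx⟩ : K), ⟨y, my⟩, ⟨p, mp⟩] (⟨r, mr⟩ : K) ?_ ?_
  · apply Subtype.ext
    have h1 : ((MvPolynomial.aeval ![(⟨x, mx⟩ : K), ⟨y, my⟩, ⟨p, mp⟩] B : K) : N) =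
        MvPolynomial.aeval ![x, y, p] B := by
      have h3 : (K.val).comp (MvPolynomial.aeval ![(⟨x, mx⟩ : K), ⟨y, my⟩, ⟨p, mp⟩]) =
          MvPolynomial.aeval (R := Ω) ![x, y, p] := by
        ext i
        fin_cases i <;> simp
      exact DFunLike.congr_fun h3 B
    rw [h1, ← hr]
    rfl
  · apply lift_injective K
    rw [lift_top, lift_adjoin]
    refine Eq.trans ?_ hK.symm
    congr 1
    ext a
    simp only [Set.image_union, Set.image_singleton, Set.mem_union, Set.mem_image,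
      Set.mem_range, Set.mem_singleton_iff, Set.mem_insert_iff]
    constructor
    · rintro (⟨b, ⟨i, rfl⟩, rfl⟩ | rfl)
      · fin_cases i
        · exact Or.inl rfl
        · exact Or.inr (Or.inl rfl)
        · exact Or.inr (Or.inr (Or.inl rfl))
      · exact Or.inr (Or.inr (Or.inr rfl))
    · rintro (rfl | rfl | rfl | rfl)
      · exact Or.inl ⟨_, ⟨0, rfl⟩, rfl⟩
      · exact Or.inl ⟨_, ⟨1, rfl⟩, rfl⟩
      · exact Or.inl ⟨_, ⟨2, rfl⟩, rfl⟩
      · exact Or.inr rfl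

/-- the polynomial `f(X 0, X 1)` in three variables -/
noncomputable def up {Ω : Type} [Field Ω] (f : MvPolynomial (Fin 2) Ω) : MvPolynomial (Fin 3) Ω :=
  MvPolynomial.rename Fin.castSucc f

theorem up_deg {Ω : Type} [Field Ω] (f : MvPolynomial (Fin 2) Ω) :
    (up f).totalDegree ≤ f.totalDegree := MvPolynomial.totalDegree_rename_le _ _

theorem aeval_up {Ω N : Type} [Field Ω] [Field N] [Algebra Ω N] (f : MvPolynomial (Fin 2) Ω)
    (x y p : N) : MvPolynomial.aeval ![x, y, p] (up f) = MvPolynomial.aeval ![x, y] f := by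
  unfold up
  rw [MvPolynomial.aeval_rename]
  congr 1
  congr 1
  funext i
  fin_cases i <;> rfl

section

variable {Ω N : Type} [Field Ω] [IsAlgClosed Ω] [Field N] [Algebra Ω N]

omit [IsAlgClosed Ω] in
private theorem mem_val15 (f : MvPolynomial (Fin 2) Ω) (x y : N) (F : IntermediateField Ω N)
    (hx : x ∈ F) (hy : y ∈ F) : MvPolynomial.aeval ![x, y] f ∈ F := by
  have h := map_aeval75 F.val (⟨x, hx⟩ : F) ⟨y, hy⟩ f
  change ((MvPolynomial.aeval ![(⟨x, hx⟩ : F), ⟨y, hy⟩] f : F) : N) = _ at h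
  rw [show MvPolynomial.aeval ![x, y] f = ((MvPolynomial.aeval ![(⟨x, hx⟩ : F), ⟨y, hy⟩] f : F) : N)
    from h.symm]
  exact Subtype.property _

/-- `n = 6`, `deg f ≤ 6` -/
theorem solid_six (h2 : (2 : Ω) ≠ 0) (f : MvPolynomial (Fin 2) Ω) (hf : f.totalDegree ≤ 6)
    (x y v s : N) (hf0 : MvPolynomial.aeval ![x, y] f ≠ 0) (hv0 : v ≠ 0) (hv1 : 1 - v ≠ 0)
    (hs : v ^ 2 * (1 - v) ^ 3 = s ^ 6 * MvPolynomial.aeval ![x, y] f) :
    Uniruled Ω (adjoin Ω {x, y, v, s} : IntermediateField Ω N) 3 := by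
  set c := MvPolynomial.aeval ![x, y] f with hc
  have hs0 : s ≠ 0 := by
    rintro rfl
    rw [zero_pow (by norm_num), zero_mul] at hs
    exact mul_ne_zero (pow_ne_zero _ hv0) (pow_ne_zero _ hv1) hs
  have key : (v * c) ^ 2 * ((1 - v) * c) ^ 3 = (s * c) ^ 6 := by
    linear_combination c ^ 5 * hs
  set p : N := (v * c) * ((1 - v) * c) / (s * c) ^ 2 with hp
  have hu : s * c ≠ 0 := mul_ne_zero hs0 hf0
  have hP : v * c ≠ 0 := mul_ne_zero hv0 hf0
  have hR : (1 - v) * c ≠ 0 := mul_ne_zero hv1 hf0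
  have hp0 : p ≠ 0 := div_ne_zero (mul_ne_zero hP hR) (pow_ne_zero _ hu)
  have e1 : p ^ 3 = v * c := by
    rw [hp, div_pow, div_eq_iff (pow_ne_zero _ (pow_ne_zero _ hu))]
    linear_combination (v * c) * key
  set r : N := s * c / p with hr
  have e2 : r ^ 2 = (1 - v) * c := by
    rw [hr, div_pow, div_eq_iff (pow_ne_zero _ hp0)]
    have h1 : ((1 - v) * c) * p ^ 2 * (s * c) ^ 4 = (s * c) ^ 2 * (s * c) ^ 4 := by
      rw [hp]
      field_simp
      linear_combination hs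
    exact (mul_right_cancel₀ (pow_ne_zero 4 hu) h1).symm
  refine uni_in_solid h2 (up f - MvPolynomial.X 2 ^ 3) ?_ x y p r ?_ _ ?_
  · refine (MvPolynomial.totalDegree_sub _ _).trans (max_le ((up_deg f).trans hf) ?_)
    rw [MvPolynomial.totalDegree_X_pow]
    norm_num
  · rw [map_sub, map_pow, aeval_up, MvPolynomial.aeval_X]
    change r ^ 2 = c - p ^ 3
    rw [e1, e2]
    ring
  · have mx : x ∈ adjoin Ω {x, y, p, r} := subset_adjoin _ _ (by simp)
    have my : y ∈ adjoin Ω {x, y, p, r} := subset_adjoin _ _ (by simp)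
    have mp : p ∈ adjoin Ω {x, y, p, r} := subset_adjoin _ _ (by simp)
    have mr : r ∈ adjoin Ω {x, y, p, r} := subset_adjoin _ _ (by simp)
    have mc : c ∈ adjoin Ω {x, y, p, r} := mem_val15 f x y _ mx my
    rintro a (rfl | rfl | rfl | rfl)
    · exact mx
    · exact my
    · have : a = p ^ 3 / c := by rw [e1, mul_div_cancel_right₀ _ hf0]
      rw [this]
      exact div_mem (pow_mem mp 3) mc
    · have : a = r * p / c := by
        rw [hr, div_mul_cancel₀ _ hp0, mul_div_cancel_right₀ _ hf0]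
      rw [this]
      exact div_mem (mul_mem mr mp) mc

/-- `n = 10`, `deg f ≤ 5` -/
theorem solid_ten (h2 : (2 : Ω) ≠ 0) (f : MvPolynomial (Fin 2) Ω) (hf : f.totalDegree ≤ 5)
    (x y v s : N) (hf0 : MvPolynomial.aeval ![x, y] f ≠ 0) (hv0 : v ≠ 0) (hv1 : 1 - v ≠ 0)
    (hs : v ^ 5 * (1 - v) ^ 4 = s ^ 10 * MvPolynomial.aeval ![x, y] f) :
    Uniruled Ω (adjoin Ω {x, y, v, s} : IntermediateField Ω N) 3 := by
  set c := MvPolynomial.aeval ![x, y] f with hc
  have hs0 : s ≠ 0 := by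
    rintro rfl
    rw [zero_pow (by norm_num), zero_mul] at hs
    exact mul_ne_zero (pow_ne_zero _ hv0) (pow_ne_zero _ hv1) hs
  have key : (v * c) ^ 5 * ((1 - v) * c) ^ 4 = (s * c) ^ 10 := by
    linear_combination c ^ 9 * hs
  set p : N := (v * c) * ((1 - v) * c) / (s * c) ^ 2 with hp
  have hu : s * c ≠ 0 := mul_ne_zero hs0 hf0
  have hP : v * c ≠ 0 := mul_ne_zero hv0 hf0
  have hR : (1 - v) * c ≠ 0 := mul_ne_zero hv1 hf0
  have hp0 : p ≠ 0 := div_ne_zero (mul_ne_zero hP hR) (pow_ne_zero _ hu)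
  have e1 : p ^ 5 = (1 - v) * c := by
    rw [hp, div_pow, div_eq_iff (pow_ne_zero _ (pow_ne_zero _ hu))]
    linear_combination ((1 - v) * c) * key
  set r : N := s * c / p ^ 2 with hr
  have e2 : r ^ 2 = v * c := by
    rw [hr, div_pow, div_eq_iff (pow_ne_zero _ (pow_ne_zero _ hp0))]
    have h1 : (v * c) * (p ^ 2) ^ 2 * (s * c) ^ 8 = (s * c) ^ 2 * (s * c) ^ 8 := by
      rw [hp]
      field_simp
      linear_combination hs
    exact (mul_right_cancel₀ (pow_ne_zero 8 hu) h1).symm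
  refine uni_in_solid h2 (up f - MvPolynomial.X 2 ^ 5) ?_ x y p r ?_ _ ?_
  · refine (MvPolynomial.totalDegree_sub _ _).trans (max_le ((up_deg f).trans (by omega)) ?_)
    rw [MvPolynomial.totalDegree_X_pow]
    norm_num
  · rw [map_sub, map_pow, aeval_up, MvPolynomial.aeval_X]
    change r ^ 2 = c - p ^ 5
    rw [e1, e2]
    ring
  · have mx : x ∈ adjoin Ω {x, y, p, r} := subset_adjoin _ _ (by simp)
    have my : y ∈ adjoin Ω {x, y, p, r} := subset_adjoin _ _ (by simp)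
    have mp : p ∈ adjoin Ω {x, y, p, r} := subset_adjoin _ _ (by simp)
    have mr : r ∈ adjoin Ω {x, y, p, r} := subset_adjoin _ _ (by simp)
    have mc : c ∈ adjoin Ω {x, y, p, r} := mem_val15 f x y _ mx my
    rintro a (rfl | rfl | rfl | rfl)
    · exact mx
    · exact my
    · have : a = r ^ 2 / c := by rw [e2, mul_div_cancel_right₀ _ hf0]
      rw [this]
      exact div_mem (pow_mem mr 2) mc
    · have : a = r * p ^ 2 / c := by
        rw [hr, div_mul_cancel₀ _ (pow_ne_zero _ hp0), mul_div_cancel_right₀ _ hf0]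
      rw [this]
      exact div_mem (mul_mem mr (pow_mem mp 2)) mc

/-- `n = 8`, `deg f ≤ 5` -/
theorem solid_eight (h2 : (2 : Ω) ≠ 0) (f : MvPolynomial (Fin 2) Ω) (hf : f.totalDegree ≤ 5)
    (x y v s : N) (hf0 : MvPolynomial.aeval ![x, y] f ≠ 0) (hv0 : v ≠ 0) (hv1 : 1 - v ≠ 0)
    (hs : v ^ 3 * (1 - v) ^ 4 = s ^ 8 * MvPolynomial.aeval ![x, y] f) :
    Uniruled Ω (adjoin Ω {x, y, v, s} : IntermediateField Ω N) 3 := by
  set c := MvPolynomial.aeval ![x, y] f with hc
  have hs0 : s ≠ 0 := by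
    rintro rfl
    rw [zero_pow (by norm_num), zero_mul] at hs
    exact mul_ne_zero (pow_ne_zero _ hv0) (pow_ne_zero _ hv1) hs
  have key : (v * c) ^ 3 * ((1 - v) * c) ^ 4 = (s * c) ^ 8 := by
    linear_combination c ^ 7 * hs
  set p : N := (v * c) * ((1 - v) * c) / (s * c) ^ 2 with hp
  have hu : s * c ≠ 0 := mul_ne_zero hs0 hf0
  have hP : v * c ≠ 0 := mul_ne_zero hv0 hf0
  have hR : (1 - v) * c ≠ 0 := mul_ne_zero hv1 hf0
  have hp0 : p ≠ 0 := div_ne_zero (mul_ne_zero hP hR) (pow_ne_zero _ hu)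
  have e1 : p ^ 4 = v * c := by
    rw [hp, div_pow, div_eq_iff (pow_ne_zero _ (pow_ne_zero _ hu))]
    linear_combination (v * c) * key
  set r : N := s * c / p with hr
  have e2 : r ^ 2 = p * ((1 - v) * c) := by
    rw [hr, div_pow, div_eq_iff (pow_ne_zero _ hp0)]
    have h1 : p * ((1 - v) * c) * p ^ 2 * (s * c) ^ 6 = (s * c) ^ 2 * (s * c) ^ 6 := by
      rw [hp]
      field_simp
      linear_combination hs
    exact (mul_right_cancel₀ (pow_ne_zero 6 hu) h1).symm
  refine uni_in_solid h2 (MvPolynomial.X 2 * (up f - MvPolynomial.X 2 ^ 4)) ?_ x y p r ?_ _ ?_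
  · refine (MvPolynomial.totalDegree_mul _ _).trans ?_
    rw [MvPolynomial.totalDegree_X]
    have h3 : (up f - MvPolynomial.X 2 ^ 4).totalDegree ≤ 5 := by
      refine (MvPolynomial.totalDegree_sub _ _).trans (max_le ((up_deg f).trans hf) ?_)
      rw [MvPolynomial.totalDegree_X_pow]
      norm_num
    omega
  · rw [map_mul, map_sub, map_pow, aeval_up, MvPolynomial.aeval_X]
    change r ^ 2 = p * (c - p ^ 4)
    rw [e1, e2]
    ring
  · have mx : x ∈ adjoin Ω {x, y, p, r} := subset_adjoin _ _ (by simp)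
    have my : y ∈ adjoin Ω {x, y, p, r} := subset_adjoin _ _ (by simp)
    have mp : p ∈ adjoin Ω {x, y, p, r} := subset_adjoin _ _ (by simp)
    have mr : r ∈ adjoin Ω {x, y, p, r} := subset_adjoin _ _ (by simp)
    have mc : c ∈ adjoin Ω {x, y, p, r} := mem_val15 f x y _ mx my
    rintro a (rfl | rfl | rfl | rfl)
    · exact mx
    · exact my
    · have : a = p ^ 4 / c := by rw [e1, mul_div_cancel_right₀ _ hf0]
      rw [this]
      exact div_mem (pow_mem mp 4) mc
    · have : a = r * p / c := by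
        rw [hr, div_mul_cancel₀ _ hp0, mul_div_cancel_right₀ _ hf0]
      rw [this]
      exact div_mem (mul_mem mr mp) mc

/-- `n = 4`, `deg f ≤ 6` -/
theorem solid_four (h2 : (2 : Ω) ≠ 0) (f : MvPolynomial (Fin 2) Ω) (hf : f.totalDegree ≤ 6)
    (x y v s : N) (hv0 : v ≠ 0) (hv1 : 1 - v ≠ 0)
    (hs : v * (1 - v) = s ^ 4 * MvPolynomial.aeval ![x, y] f) :
    Uniruled Ω (adjoin Ω {x, y, v, s} : IntermediateField Ω N) 3 := by
  set c := MvPolynomial.aeval ![x, y] f with hc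
  have hs0 : s ≠ 0 := by
    rintro rfl
    rw [zero_pow (by norm_num), zero_mul] at hs
    exact mul_ne_zero hv0 hv1 hs
  have h2N : (2 : N) ≠ 0 := by
    intro h
    apply h2
    apply (algebraMap Ω N).injective
    rw [map_ofNat, map_zero, h]
  obtain ⟨p, hp⟩ : ∃ p : N, p = 1 / s := ⟨_, rfl⟩
  obtain ⟨r, hr⟩ : ∃ r : N, r = (2 * v - 1) / s ^ 2 := ⟨_, rfl⟩
  refine uni_in_solid h2 (MvPolynomial.X 2 ^ 4 - MvPolynomial.C 4 * up f) ?_ x y p r ?_ _ ?_
  · refine (MvPolynomial.totalDegree_sub _ _).trans (max_le ?_ ?_)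
    · rw [MvPolynomial.totalDegree_X_pow]
      norm_num
    · refine (MvPolynomial.totalDegree_mul _ _).trans ?_
      rw [MvPolynomial.totalDegree_C, zero_add]
      exact (up_deg f).trans hf
  · rw [map_sub, map_mul, map_pow, aeval_up, MvPolynomial.aeval_X, MvPolynomial.aeval_C]
    change r ^ 2 = p ^ 4 - algebraMap Ω N 4 * c
    rw [map_ofNat, hp, hr]
    field_simp
    linear_combination (-4) * hs
  · have mx : x ∈ adjoin Ω {x, y, p, r} := subset_adjoin _ _ (by simp)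
    have my : y ∈ adjoin Ω {x, y, p, r} := subset_adjoin _ _ (by simp)
    have mp : p ∈ adjoin Ω {x, y, p, r} := subset_adjoin _ _ (by simp)
    have mr : r ∈ adjoin Ω {x, y, p, r} := subset_adjoin _ _ (by simp)
    have ms : s ∈ adjoin Ω {x, y, p, r} := by
      have h3 : s = p⁻¹ := by rw [hp, one_div, inv_inv]
      rw [h3]
      exact inv_mem mp
    have m2 : (2 : N) ∈ adjoin Ω {x, y, p, r} := by
      exact_mod_cast (adjoin Ω {x, y, p, r}).natCast_mem 2
    rintro a (rfl | rfl | rfl | rfl)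
    · exact mx
    · exact my
    · have h3 := div_mem (add_mem (mul_mem mr (pow_mem ms 2)) (one_mem _)) m2
      have h4 : (r * s ^ 2 + 1) / 2 = a := by
        rw [hr]
        field_simp
        ring
      rwa [h4] at h3
    · exact ms

end

end Pool.Agent.Helper15.QM
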