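import Pool.Agent.Helper15.QM.Pencil
import Pool.Agent.Helper15.QM.Final
import Pool.Agent.Helper48.ET.Deg

/-! Project QM. The surfaces `y ^ 2 = h(x, w ^ n)`, `deg h ≤ 3`: elliptic surfaces in towers. -/

set_option autoImplicit false

namespace Pool.Agent.Helper15.QM

open IntermediateField Pool.Agent.Helper75.QC Pool.Agent.Helper40.SD

/-- `v (1 - v) = s ^ n t` -/
theorem tower_huni {Ω K : Type} [Field Ω] [IsAlgClosed Ω] [Field K] [Algebra Ω K]
    (h2 : (2 : Ω) ≠ 0) (h : MvPolynomial (Fin 2) Ω) (hh : h.totalDegree ≤ 3) {n : ℕ}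
    (hn : 0 < n) (x y w : K) (hy : y ^ 2 = MvPolynomial.aeval ![x, w ^ n] h)
    (N : Type) [Field N] [Algebra Ω N] (g : K →ₐ[Ω] N) (v s : N)
    (hv : Transcendental g.fieldRange v) (hs : v ^ 1 * (1 - v) ^ 1 = s ^ n * g w ^ n) :
    Uniruled Ω (adjoin Ω (g '' (adjoin Ω {x, y, w ^ n} : Set K) ∪ {v, s}) :
      IntermediateField Ω N) 3 := by
  have hv0 : v * (1 - v) ≠ 0 := by
    intro h0
    apply hv
    rcases mul_eq_zero.1 h0 with h0 | h0
    · rw [h0]
      exact isAlgebraic_zero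
    · rw [(sub_eq_zero.1 h0).symm]
      exact isAlgebraic_one
  rw [pow_one, pow_one] at hs
  have hs0 : s ^ n ≠ 0 := by
    intro h0
    rw [h0, zero_mul] at hs
    exact hv0 hs
  have ht : g (w ^ n) = v * (1 - v) / s ^ n := by
    rw [map_pow, hs]
    field_simp
  have h3 := uni_tower h2 h hh n (g x) (g y) v s (by rw [← map_pow, hy, map_aeval75, ht])
  have h4 : adjoin Ω (g '' (adjoin Ω {x, y, w ^ n} : Set K) ∪ {v, s}) ≤
      adjoin Ω {g x, g y, v, s} := by
    rw [adjoin_le_iff]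
    rintro r (⟨k, hk, rfl⟩ | rfl | rfl)
    · have h5 : adjoin Ω {x, y, w ^ n} ≤ (adjoin Ω {g x, g y, v, s}).comap g := by
        rw [adjoin_le_iff]
        rintro k (rfl | rfl | rfl)
        · exact subset_adjoin _ _ (by simp)
        · exact subset_adjoin _ _ (by simp)
        · change g (w ^ n) ∈ adjoin Ω {g x, g y, v, s}
          have mv : v ∈ adjoin Ω {g x, g y, v, s} := subset_adjoin _ _ (by simp)
          have ms : s ∈ adjoin Ω {g x, g y, v, s} := subset_adjoin _ _ (by simp)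
          rw [ht]
          exact div_mem (mul_mem mv (sub_mem (one_mem _) mv)) (pow_mem ms _)
      exact h5 hk
    · exact subset_adjoin _ _ (by simp)
    · exact subset_adjoin _ _ (by simp)
  exact uniruled_adjoin (AlgHom.id Ω N) _ _ (fun a ha => h4 (subset_adjoin _ _ ha)) h3

/-- the exceptional characters -/
theorem tower_hexc {Ω L : Type} [Field Ω] [IsAlgClosed Ω] [Field L] (T : BaseTheory Ω L)
    (h2 : (2 : Ω) ≠ 0) (h : MvPolynomial (Fin 2) Ω) (hh : h.totalDegree ≤ 3) {n : ℕ}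
    (hn : 0 < n) (hn' : (n : Ω) ≠ 0) {K : Type} [Field K] [Algebra Ω K] (x y w : K)
    (hK : adjoin Ω ((adjoin Ω {x, y, w ^ n} : Set K) ∪ {w}) = ⊤) (hw0 : w ≠ 0)
    (hy : y ^ 2 = MvPolynomial.aeval ![x, w ^ n] h) {ζ : Ω} (hζ : IsPrimitiveRoot ζ n)
    (σ : K →ₐ[Ω] K) (hσ1 : ∀ k ∈ adjoin Ω {x, y, w ^ n}, σ k = k)
    (hσ2 : σ w = algebraMap Ω K ζ * w) (ξ : L) (t : T.H 2 K) (hξ : ξ ^ n = 1)
    (hξ' : ξ ^ 1 = 1 ∨ ξ ^ 1 = 1 ∨ ξ ^ (1 + 1) = 1) (ht : T.map 2 σ t = ξ • t) : t = 0 := by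
  have hξ2 : ξ ^ 2 = 1 := by
    rcases hξ' with h | h | h
    · rw [pow_one] at h
      rw [h, one_pow]
    · rw [pow_one] at h
      rw [h, one_pow]
    · exact h
  have hwF : w ^ n ∈ adjoin Ω {x, y, w ^ n} := subset_adjoin _ _ (by simp)
  refine Gen.exc_two T hn hn' hζ (adjoin Ω {x, y, w ^ n}) w hK hw0 hwF σ ⟨hσ1, hσ2⟩ ?_ ?_ ξ hξ hξ2
    t ht
  · have h3 : WDeg 6 h := by
      intro m hm
      have h1 := MvPolynomial.le_totalDegree hm
      rw [Finsupp.sum_fintype _ _ (by simp), Fin.sum_univ_two] at h1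
      omega
    refine uniruled_adjoin (AlgHom.id Ω K) _ _ ?_ (uni_cone_adjoin h2 h h3 x (w ^ n) y hy)
    rintro a (rfl | rfl | rfl)
    · exact subset_adjoin _ _ (by simp)
    · exact subset_adjoin _ _ (by simp)
    · exact subset_adjoin _ _ (by simp)
  · intro m hm
    have hyW : y ^ 2 = MvPolynomial.aeval ![x, (w ^ m) ^ 2] h := by
      rw [hy, ← pow_mul, mul_comm m 2, ← hm]
    refine uniruled_adjoin (AlgHom.id Ω K) _ _ ?_ (uni_tower_two h2 h hh x y (w ^ m) hyW)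
    rintro a (ha | rfl)
    · have h5 : adjoin Ω {x, y, w ^ n} ≤ adjoin Ω {w ^ m, x, y} := by
        rw [adjoin_le_iff]
        rintro k (rfl | rfl | rfl)
        · exact subset_adjoin _ _ (by simp)
        · exact subset_adjoin _ _ (by simp)
        · change w ^ n ∈ adjoin Ω {w ^ m, x, y}
          have mw : w ^ m ∈ adjoin Ω {w ^ m, x, y} := subset_adjoin _ _ (by simp)
          rw [hm, mul_comm 2 m, pow_mul]
          exact pow_mem mw _
      exact h5 ha
    · exact subset_adjoin _ _ (by simp)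

theorem tower_of_deg {Ω L G : Type} [Field Ω] [IsAlgClosed Ω] [Field L] [IsAlgClosed L]
    [CharZero L] [Group G] (T : MotivicTheory Ω L G) (h2 : (2 : Ω) ≠ 0)
    (h : MvPolynomial (Fin 2) Ω) (hh : h.totalDegree ≤ 3) {n : ℕ} (hn : 0 < n)
    (hn' : (n : Ω) ≠ 0) {K : Type} [Field K] [Algebra Ω K] (x y w : K)
    (hK : adjoin Ω {x, y, w} = ⊤) (hdeg : Module.finrank (adjoin Ω {x, y, w ^ n}) K = n)
    (hy : y ^ 2 = MvPolynomial.aeval ![x, w ^ n] h) (γ : G) (hγ : T.IsTrivialOnAbelian γ)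
    (t : T.H 2 K) : T.act 2 K γ t = t := by
  have hx : x ∈ adjoin Ω {x, y, w ^ n} := subset_adjoin _ _ (by simp)
  have hyM : y ∈ adjoin Ω {x, y, w ^ n} := subset_adjoin _ _ (by simp)
  have hK' : adjoin Ω ((adjoin Ω {x, y, w ^ n} : Set K) ∪ {w}) = ⊤ := by
    rw [eq_top_iff, ← hK, adjoin_le_iff]
    rintro s (rfl | rfl | rfl)
    · exact subset_adjoin _ _ (Or.inl hx)
    · exact subset_adjoin _ _ (Or.inl hyM)
    · exact subset_adjoin _ _ (Or.inr rfl)
  have hfin : (⊤ : IntermediateField Ω K).FG := by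
    rw [← hK]
    exact fg_adjoin_of_finite (Set.toFinite _)
  have hxw : ∀ k : K, k ∈ Acl Ω {x, w} := by
    intro k
    rw [← mem_AF]
    have mx : x ∈ AF Ω {x, w} := subset_AF _ (by simp)
    have mw : w ∈ AF Ω {x, w} := subset_AF _ (by simp)
    have my : y ∈ AF Ω {x, w} := by
      apply AF_root (n := 2) (by norm_num)
      rw [hy]
      exact (adjoin_le_iff.2 (by rintro b (rfl | rfl); exacts [mx, pow_mem mw _]))
        (aeval_mem75 x (w ^ n) h)
    have h1 : adjoin Ω {x, y, w} ≤ AF Ω {x, w} := by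
      rw [adjoin_le_iff]
      rintro b (rfl | rfl | rfl) <;> assumption
    apply h1
    rw [hK]
    exact mem_top
  by_cases hw0 : w = 0
  · have h3 : Uniruled Ω K 2 := by
      refine ⟨K, inferInstance, inferInstance, AlgHom.id Ω K, {x}, 0, by simp, fun k => ?_⟩
      refine subset_adjoin _ _ (Or.inl ?_)
      have h4 := hxw k
      rw [hw0, ← mem_AF] at h4
      rw [Finset.coe_singleton, ← mem_AF]
      have h5 : AF Ω ({x, 0} : Set K) ≤ AF Ω {x} := by
        intro a ha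
        rw [mem_AF] at ha ⊢
        have h6 : adjoin Ω ({x, 0} : Set K) = adjoin Ω {x} := by
          apply le_antisymm
          · rw [adjoin_le_iff]
            rintro b (rfl | rfl)
            · exact subset_adjoin _ _ rfl
            · exact zero_mem _
          · exact adjoin.mono _ _ _ (by simp)
        change IsAlgebraic (adjoin Ω ({x, 0} : Set K)) a at ha
        change IsAlgebraic (adjoin Ω ({x} : Set K)) a
        rwa [h6] at ha
      exact h5 h4
    rw [T.uniruled 2 K h3 t, map_zero]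
  · exact main_gen T 1 1 hn hn' (by simp) hfin x w hxw (adjoin Ω {x, y, w ^ n}) w hK' hw0
      (subset_adjoin _ _ (by simp)) hdeg
      (fun N _ _ g v s hv hs => tower_huni h2 h hh hn x y w hy N g v s hv hs)
      (fun ζ σ hζ h1 h3 ξ t hξ hξ' ht => tower_hexc T.toBaseTheory h2 h hh hn hn' x y w hK' hw0 hy
        hζ σ h1 h3 ξ t hξ hξ' ht) γ hγ t

theorem tower {Ω L G : Type} [Field Ω] [IsAlgClosed Ω] [Field L] [IsAlgClosed L]
    [CharZero L] [Group G] (T : MotivicTheory Ω L G) (h2 : (2 : Ω) ≠ 0)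
    (h : MvPolynomial (Fin 2) Ω) (hh : h.totalDegree ≤ 3) {n : ℕ} (hn : 0 < n)
    (hn' : (n : Ω) ≠ 0) {K : Type} [Field K] [Algebra Ω K] (x y w : K)
    (hK : adjoin Ω {x, y, w} = ⊤) (hy : y ^ 2 = MvPolynomial.aeval ![x, w ^ n] h) (γ : G)
    (hγ : T.IsTrivialOnAbelian γ) (t : T.H 2 K) : T.act 2 K γ t = t := by
  rcases Pool.Agent.Helper48.ET.tower_deg hn x y w hK (by rw [hy]; exact aeval_mem75 _ _ _) with
    h1 | h1
  · rw [T.uniruled 2 K h1 t, map_zero]
  · exact tower_of_deg T h2 h hh hn hn' x y w hK h1 hy γ hγ t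

end Pool.Agent.Helper15.QM
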